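import Pool.Agent.TH214.Res
import Pool.Agent.TH214.Clos

/-!
MP_19ffc6_ag: resolution of singularities, in all dimensions, of the varieties over a perfect field
of characteristic `p` whose function field is an elementary abelian extension of exponent `p` of the
field of rational functions, given by Artin-Schreier equations `w ^ p - w = g` whose right-hand
sides are integral linear combinations of Laurent polynomials in `y 1, ..., y n`
which are (jointly) nondegenerate in the sense of Kouchnirenko and Adolphson-Sperber with respect to
their Newton polytopes at infinity, and of arbitrary functions of pairs of further variables.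

The proof: (1) by toroidal blowups of the product of projective spaces the Laurent polynomials
become monomials of the boundary times functions; by the nondegeneracy the logarithmic differentials
of these products are linearly independent at every point of the poles, modulo those which have
no pole there; (2) this is the normal form from which the starting library (the proof of
MP_19ffc6_ag.SurfaceProductQuotients) produces, by induction on the tower of the Artin-Schreier
extensions, smooth models: the projective line bundle with the coordinates `(w - a) / x ^ m`, in
which the cover is the divisor `y ^ p - x ^ e * y = x ^ c * h`, is blown up in a sequence of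
codimension two centres.

helper214; built on the library of the starting files (helpers 558, 33, 369, 405, 368, 356, 29,
230, 32, 906, 191, 410, 435, 376, 382, 348, 135, 991, 366, 74, 305, 417, 440, 409, 174, 290, 392,
352, 565, 335, 924, 337, 347, 479, 959, 727, 202, 440, 490 and others).
-/

set_option autoImplicit false

open AlgebraicGeometry CategoryTheory Pool.Agent.W558

universe u

namespace Pool.Agent.Results.MP_19ffc6_ag.NondegenerateLaurentCovers

/-- The Laurent polynomial `∑ e, F e * Y ^ e`, `e ∈ ℤ^n`, evaluated at the elements `y 1, ..., y n`
of a field `K`. -/
noncomputable def value {k K : Type u} [Field k] [Field K] [Algebra k K] {n : ℕ}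
    (F : (Fin n → ℤ) →₀ k) (y : Fin n → K) : K :=
  ∑ e ∈ F.support, F e • ∏ j, y j ^ e j

/-- Let `F_σ` be the sum of the terms `F e * Y ^ e` of the Laurent polynomial `F` of minimal
weight `l · e`, so `σ` is the face of the Newton polytope of `F` on which the linear form `l` is
minimal. This is the value of the logarithmic derivative `∑ j, a j * (Y j * ∂ F_σ / ∂ Y j)` at
the point `z`. -/
noncomputable def faceDerivative {k : Type u} [Field k] {n : ℕ} (F : (Fin n → ℤ) →₀ k)
    (l : Fin n → ℤ) (z a : Fin n → AlgebraicClosure k) : AlgebraicClosure k :=
  ∑ e ∈ F.support.filter (fun e => ∀ e' ∈ F.support, ∑ j, l j * e j ≤ ∑ j, l j * e' j),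
    algebraMap k (AlgebraicClosure k) (F e) * (∑ j, (e j : AlgebraicClosure k) * a j) *
      ∏ j, z j ^ e j

/-- The Laurent polynomials `F 1, ..., F s` over `k` are jointly nondegenerate at infinity: for
all `l ∈ ℤ^n` and all points `z` of the torus over the algebraic closure of `k`, if `F t` has a
term of negative weight `l · e`, then there is a direction `a` in which the logarithmic derivative
of the part of `F t` of minimal weight does not vanish at `z`, while for all `t' ≠ t` such that
`F t'` has a term of weight `≤ 0` the logarithmic derivative of the part of `F t'` of minimal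
weight vanishes at `z`.

For a single Laurent polynomial `F` this says that for all faces `σ` of the Newton polytope at
infinity (the convex hull of the exponents and of the origin) which do not contain the origin
the partial derivatives `∂ F_σ / ∂ Y j` have no common zero in the torus. -/
def JointlyNondegenerate {k : Type u} [Field k] {n s : ℕ} (F : Fin s → (Fin n → ℤ) →₀ k) : Prop :=
  ∀ (l : Fin n → ℤ) (z : Fin n → AlgebraicClosure k), (∀ j, z j ≠ 0) → ∀ t,
    (∃ e ∈ (F t).support, ∑ j, l j * e j < 0) →
    ∃ a : Fin n → AlgebraicClosure k, faceDerivative (F t) l z a ≠ 0 ∧
      ∀ t', t' ≠ t → (∃ e ∈ (F t').support, ∑ j, l j * e j ≤ 0) →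
        faceDerivative (F t') l z a = 0

/-- Let `k` be a perfect field of characteristic `p` and let `x i 0, x i 1` (`i = 1, ..., m`) and
`y 1, ..., y n` be algebraically independent elements of the field extension `K` of `k`. Let
`f i = P i / Q i` be arbitrary rational functions in two variables and `F 1, ..., F s` jointly
nondegenerate Laurent polynomials in `n` variables over `k`. Suppose that `K` is generated
over `k` by the `x i j`, the `y l` and elements `w 1, ..., w r` such that every `w j ^ p - w j` is a
linear combination with integral coefficients of the `f i (x i 0, x i 1)` and the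
`F t (y 1, ..., y n)`. Let `A` be a finitely generated `k`-algebra with fraction field `K` which is
integral over the subalgebra generated by finitely many elements each of which is a product of
rational functions in the pairs `x i 0, x i 1` and a Laurent monomial in `y 1, ..., y n`; for
example `k[x, y]`. Then the variety `Spec A` has a resolution of singularities.

For example, this holds for the hypersurface `w ^ p - w = F (y 1, ..., y n)`, for a
polynomial `F` which is nondegenerate with respect to its Newton polytope at infinity. -/
theorem result (p : ℕ) [Fact p.Prime] (k K : Type u) [Field k] [PerfectField k] [CharP k p]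
    [Field K] [Algebra k K] (m n r s : ℕ) (x : Fin m → Fin 2 → K) (y : Fin n → K)
    (hxy : AlgebraicIndependent k (Sum.elim (fun q : Fin m × Fin 2 => x q.1 q.2) y))
    (P Q : Fin m → MvPolynomial (Fin 2) k) (hQ : ∀ i, Q i ≠ 0)
    (F : Fin s → (Fin n → ℤ) →₀ k) (hF : JointlyNondegenerate F)
    (w : Fin r → K)
    (hw : ∀ j, w j ^ p - w j ∈ AddSubgroup.closure
      ((Set.range fun i => MvPolynomial.aeval (x i) (P i) / MvPolynomial.aeval (x i) (Q i)) ∪
        Set.range fun t => value (F t) y))
    (hgen : IntermediateField.adjoin k (Set.range w ∪
      Set.range (Sum.elim (fun q : Fin m × Fin 2 => x q.1 q.2) y)) = ⊤)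
    (A : Type u) [CommRing A] [IsDomain A] [Algebra k A] [Algebra.FiniteType k A] [Algebra A K]
    [IsScalarTower k A K] [IsFractionRing A K] (S : Finset A)
    (hS : ∀ a ∈ S, ∃ (R H : Fin m → MvPolynomial (Fin 2) k) (e : Fin n → ℤ),
      (∀ i, R i ≠ 0 ∧ H i ≠ 0) ∧ algebraMap A K a =
        (∏ i, MvPolynomial.aeval (x i) (R i) / MvPolynomial.aeval (x i) (H i)) *
          ∏ l, y l ^ e l)
    (hA : ∀ a : A, IsIntegral (Algebra.adjoin k (S : Set A)) a) :
    IsResolvableVariety (X := Spec (CommRingCat.of A))
      (Spec.map (CommRingCat.ofHom (algebraMap k A))) := by
  have hND : Pool.Agent.TH214.ND F (fun _ => False) := by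
    apply Pool.Agent.TH214.nd_of_ndc
    intro l z hz t ht
    obtain ⟨a, h1, h2⟩ := hF l z hz t (ht.resolve_left id)
    exact ⟨a, h1, fun t' ht' h => h2 t' ht' (h.resolve_left id)⟩
  refine Pool.Agent.TH214.tw_resolution p k K m n x y P Q (Fin s) F (fun _ => False)
    (fun _ _ => 1) (fun _ _ => 1) (fun _ => 1) r w hxy hQ (fun _ _ => one_ne_zero)
    (fun _ _ => one_ne_zero) hND (fun t ht => ht.elim) (fun _ _ => rfl) ?_ hgen A S hS hA
  intro j
  simp only [one_mul]
  exact hw j

end Pool.Agent.Results.MP_19ffc6_ag.NondegenerateLaurentCovers
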