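import Pool.Agent.TH214.V.SchRes
import Pool.Agent.TH214.V.ClosV

/-!
MP_19ffc6_ag: resolution of singularities, in all dimensions, of the varieties over a perfect field
of characteristic `p` whose function field is an elementary abelian extension of exponent `p` of the
function field of the product of an affine space and a subvariety `V` of a torus which is schön
with respect to given equations `G 1, ..., G q` (all initial degenerations of the equations are
smooth), the Artin-Schreier equations `w ^ p - w = g` being given by Laurent polynomials on
`V` which are jointly nondegenerate at infinity on `V`, and arbitrary functions of pairs of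
variables of the affine space. For example `V` may be the complement of an arrangement of
hyperplanes or a nondegenerate complete intersection in the torus; for `V` the torus this is
MP_19ffc6_ag.NondegenerateLaurentCovers.

The proof: (1) on a toroidal blowup of a compactification of the product of the torus and
the affine space, adapted to the Newton polytopes of the `G s` and of the Laurent polynomials `F t`,
the closure of the subvariety is smooth and has normal crossings with the boundary: the strict
transforms of the equations `G s` at the points of the closure have independent differentials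
in directions tangent to the strata of the boundary (from those of the initial forms), and generate
the ideal of the closure by a dimension count and Nakayama's lemma; (2) by the nondegeneracy, the
logarithmic differentials of the polar parts of the `F t` are linearly independent on the closure
at every point of the poles, modulo those which have no pole there, and by correction with the
logarithmic vectors of the torus tangent to `V` this extends to the functions of the pairs; this
is the normal form from which the starting library (the proof of
MP_19ffc6_ag.SurfaceProductQuotients) produces smooth models of the tower of Artin-Schreier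
extensions.

helper214; built on the library of the starting files (helpers 558, 33, 369, 405, 368, 356, 29,
230, 32, 906, 191, 410, 435, 376, 382, 348, 135, 991, 366, 74, 305, 417, 440, 409, 174, 290, 392,
352, 565, 335, 924, 337, 347, 479, 959, 727, 202, 440, 490 and others).
-/

set_option autoImplicit false

open AlgebraicGeometry CategoryTheory Pool.Agent.W558

universe u

namespace Pool.Agent.Results.MP_19ffc6_ag.SchonCovers

/-- The Laurent polynomial `∑ e, F e * Y ^ e`, `e ∈ ℤ^n`, evaluated at the elements `y 1, ..., y n`
of a field `K`. -/
noncomputable def value {k K : Type u} [Field k] [Field K] [Algebra k K] {n : ℕ}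
    (F : (Fin n → ℤ) →₀ k) (y : Fin n → K) : K :=
  ∑ e ∈ F.support, F e • ∏ j, y j ^ e j

/-- The exponents of the initial form of the Laurent polynomial `F` with respect to the
weights `l`: those of minimal weight `l · e`. -/
def initialExponents {k : Type u} [Field k] {n : ℕ} (F : (Fin n → ℤ) →₀ k) (l : Fin n → ℤ) :
    Finset (Fin n → ℤ) :=
  F.support.filter (fun e => ∀ e' ∈ F.support, ∑ j, l j * e j ≤ ∑ j, l j * e' j)

/-- The value of the initial form of `F` with respect to the weights `l` at the point `z` of the
torus over the algebraic closure of `k`. -/
noncomputable def initialValue {k : Type u} [Field k] {n : ℕ} (F : (Fin n → ℤ) →₀ k)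
    (l : Fin n → ℤ) (z : Fin n → AlgebraicClosure k) : AlgebraicClosure k :=
  ∑ e ∈ initialExponents F l, algebraMap k (AlgebraicClosure k) (F e) * ∏ j, z j ^ e j

/-- The vector of the values of the logarithmic partial derivatives `Y j * ∂ / ∂ Y j` of the
initial form of `F` with respect to the weights `l` at the point `z`. -/
noncomputable def initialGradient {k : Type u} [Field k] {n : ℕ} (F : (Fin n → ℤ) →₀ k)
    (l : Fin n → ℤ) (z : Fin n → AlgebraicClosure k) : Fin n → AlgebraicClosure k :=
  fun i => ∑ e ∈ initialExponents F l,
    algebraMap k (AlgebraicClosure k) (F e) * (e i : AlgebraicClosure k) * ∏ j, z j ^ e j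

/-- The subscheme of the torus given by the Laurent polynomials `G 1, ..., G q` is schön of
codimension at least `c` with respect to these equations: for all weights `l ∈ ℤ^n` and all points
`z` of the torus over the algebraic closure of `k` at which the initial forms of all `G s` vanish
the gradients of these initial forms span a space of dimension at least `c`. -/
def SchonEquations {k : Type u} [Field k] {n q : ℕ} (G : Fin q → (Fin n → ℤ) →₀ k) (c : ℕ) :
    Prop :=
  ∀ (l : Fin n → ℤ) (z : Fin n → AlgebraicClosure k), (∀ j, z j ≠ 0) →
    (∀ s, initialValue (G s) l z = 0) →
    c ≤ Module.finrank (AlgebraicClosure k) (Submodule.span (AlgebraicClosure k)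
      (Set.range fun s => initialGradient (G s) l z))

/-- The Laurent polynomials `F 1, ..., F s` are jointly nondegenerate at infinity on the
subscheme given by `G 1, ..., G q`: for all weights `l ∈ ℤ^n` and all points `z` of the torus over
the algebraic closure of `k` at which the initial forms of all `G i` vanish, if `F t` has a
term of negative weight `l · e`, then the gradient of the initial form of `F t` at `z` is not a
linear combination of the gradients of the initial forms of the `G i` and of those
`F t'`, `t' ≠ t`, which have a term of weight `≤ 0`. For `q = 0` and `s = 1` this is the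
nondegeneracy with respect to the Newton polytope at infinity. -/
def NondegenerateOn {k : Type u} [Field k] {n q s : ℕ} (G : Fin q → (Fin n → ℤ) →₀ k)
    (F : Fin s → (Fin n → ℤ) →₀ k) : Prop :=
  ∀ (l : Fin n → ℤ) (z : Fin n → AlgebraicClosure k), (∀ j, z j ≠ 0) →
    (∀ i, initialValue (G i) l z = 0) → ∀ t, (∃ e ∈ (F t).support, ∑ j, l j * e j < 0) →
    initialGradient (F t) l z ∉ Submodule.span (AlgebraicClosure k)
      ((Set.range fun i => initialGradient (G i) l z) ∪
        {v | ∃ t', t' ≠ t ∧ (∃ e ∈ (F t').support, ∑ j, l j * e j ≤ 0) ∧
          v = initialGradient (F t') l z})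

/-- Let `k` be a perfect field of characteristic `p`. Let `x i 0, x i 1` (`i = 1, ..., m`) and
`y 1, ..., y n` be elements of the field extension `K` of `k`, `y j ≠ 0`, such that
`G 1 (y) = ... = G q (y) = 0` for Laurent polynomials `G i` over `k` which are schön of
codimension at least `c`, and such that the `x i j` together with `d = n - c` of the elements
`y 1, ..., y n` are algebraically independent (so `y` is the generic point of a component `V`, of
dimension `d`, of the subscheme of the torus given by the `G i`, and the `x i j` are algebraically
independent over the function field of `V`). Let `f i = P i / Q i` be arbitrary rational functions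
in two variables and let `F 1, ..., F s` be Laurent polynomials which are jointly nondegenerate at
infinity on the subscheme given by `G 1, ..., G q`. Suppose that `K` is generated over `k` by the
`x i j`, the `y l` and elements `w 1, ..., w r` such that every `w j ^ p - w j` is a linear
combination with integral coefficients of the `f i (x i 0, x i 1)` and the
`F t (y 1, ..., y n)`. Let `A` be a finitely generated `k`-algebra with fraction field `K` which is
integral over the subalgebra generated by finitely many elements each of which is a product of
rational functions in the pairs `x i 0, x i 1` and a Laurent monomial in `y 1, ..., y n`; for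
example `k[x, y]`. Then the variety `Spec A` has a resolution of singularities. -/
theorem result (p : ℕ) [Fact p.Prime] (k K : Type u) [Field k] [PerfectField k] [CharP k p]
    [Field K] [Algebra k K] (m n c d q r s : ℕ) (x : Fin m → Fin 2 → K) (y : Fin n → K)
    (hy : ∀ j, y j ≠ 0) (G : Fin q → (Fin n → ℤ) →₀ k) (hG : SchonEquations G c)
    (hGy : ∀ i, value (G i) y = 0) (ρ : Fin d → Fin n) (hn : c + d = n)
    (hxy : AlgebraicIndependent k (Sum.elim (fun q : Fin m × Fin 2 => x q.1 q.2) (y ∘ ρ)))
    (P Q : Fin m → MvPolynomial (Fin 2) k) (hQ : ∀ i, Q i ≠ 0)
    (F : Fin s → (Fin n → ℤ) →₀ k) (hF : NondegenerateOn G F)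
    (w : Fin r → K)
    (hw : ∀ j, w j ^ p - w j ∈ AddSubgroup.closure
      ((Set.range fun i => MvPolynomial.aeval (x i) (P i) / MvPolynomial.aeval (x i) (Q i)) ∪
        Set.range fun t => value (F t) y))
    (hgen : IntermediateField.adjoin k (Set.range w ∪
      Set.range (Sum.elim (fun q : Fin m × Fin 2 => x q.1 q.2) y)) = ⊤)
    (A : Type u) [CommRing A] [IsDomain A] [Algebra k A] [Algebra.FiniteType k A] [Algebra A K]
    [IsScalarTower k A K] [IsFractionRing A K] (S : Finset A)
    (hS : ∀ a ∈ S, ∃ (R H : Fin m → MvPolynomial (Fin 2) k) (e : Fin n → ℤ),
      (∀ i, R i ≠ 0 ∧ H i ≠ 0) ∧ algebraMap A K a =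
        (∏ i, MvPolynomial.aeval (x i) (R i) / MvPolynomial.aeval (x i) (H i)) *
          ∏ l, y l ^ e l)
    (hA : ∀ a : A, IsIntegral (Algebra.adjoin k (S : Set A)) a) :
    IsResolvableVariety (X := Spec (CommRingCat.of A))
      (Spec.map (CommRingCat.ofHom (algebraMap k A))) := by
  have hNDc : Pool.Agent.TH214.V.NDVc G F (Function.Embedding.refl (Fin n)) (fun _ => False) c := by
    intro l z hz hv
    refine ⟨hG l z hz hv, fun t ht => ?_⟩
    have h1 := hF l z hz hv t (ht.resolve_left id)
    have h2 : {v | ∃ t', t' ≠ t ∧ (False ∨ ∃ e ∈ (F t').support, ∑ j, l j * e j ≤ 0) ∧
        v = Pool.Agent.TH214.V.gv (F t') (Function.Embedding.refl (Fin n)) l z} =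
        {v | ∃ t', t' ≠ t ∧ (∃ e ∈ (F t').support, ∑ j, l j * e j ≤ 0) ∧
          v = initialGradient (F t') l z} := by
      ext v
      constructor
      · rintro ⟨t', h3, h4, h5⟩
        exact ⟨t', h3, h4.resolve_left id, h5⟩
      · rintro ⟨t', h3, h4, h5⟩
        exact ⟨t', h3, Or.inr h4, h5⟩
    rw [h2]
    exact h1
  have hND := Pool.Agent.TH214.V.ndv_of_ndvc hNDc
  have e1 : (fun j => j ∈ Set.range (Function.Embedding.refl (Fin n))) =
      fun j => ((Function.Embedding.inr : Fin n ↪ Empty ⊕ Fin n) j).isRight = true := by
    funext j
    exact propext ⟨fun _ => rfl, fun _ => ⟨j, rfl⟩⟩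
  rw [e1] at hND
  exact Pool.Agent.TH214.V.sch_resolution p k K m n x y hy d c ρ hn hxy P Q hQ Empty
    (fun b => b.elim) (fun b => b.elim) (fun b => b.elim) (fun b => b.elim) (fun b => b.elim)
    (fun b => b.elim) (Fin n) Function.Embedding.inr (Fin q) (Fin s) G F (fun _ => False)
    hGy hND (fun t _ => ⟨fun _ _ _ j hj => absurd rfl hj, fun _ _ j hj => absurd rfl hj⟩)
    r w hw hgen A S hS hA

end Pool.Agent.Results.MP_19ffc6_ag.SchonCovers
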