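import Pool.Agent.TH214.Res
import Pool.Agent.TH214.Clos
import Pool.Agent.W558.WT.LU

/-!
MP_3029eb_ag: local uniformization of the local rings, of all dimensions and at all valuations, of
the varieties over perfect fields of characteristic `p` whose function field is an elementary
abelian extension of exponent `p` of the field of rational functions, given by Artin-Schreier
equations `w ^ p - w = g` whose right-hand sides are sums of arbitrary functions of pairs of
variables `x i`, of Laurent polynomials in further variables `y` and of products of functions of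
the `x i` and of Laurent polynomials in `y`, such that the Laurent polynomials are jointly
nondegenerate with respect to their Newton polytopes at infinity.

See MP_4d1008_ag.NondegenerateLaurentCovers for the proof.

helper214; built on the library of the starting files (helpers 558, 33, 369, 405, 368, 356, 29,
230, 32, 906, 191, 410, 435, 376, 382, 348, 135, 991, 366, 74, 305, 417, 440, 409, 174, 290, 392,
352, 565, 335, 924, 337, 347, 479, 959, 727, 202 and others).
-/

set_option autoImplicit false

namespace Pool.Agent.Results.MP_3029eb_ag.NondegenerateLaurentLU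

/-- The Laurent polynomial `∑ e, F e * Y ^ e`, `e ∈ ℤ^n`, evaluated at the elements `y 1, ..., y n`
of a field `K`. -/
noncomputable def value {k K : Type} [Field k] [Field K] [Algebra k K] {n : ℕ}
    (F : (Fin n → ℤ) →₀ k) (y : Fin n → K) : K :=
  ∑ e ∈ F.support, F e • ∏ j, y j ^ e j

/-- Let `F_σ` be the sum of the terms `F e * Y ^ e` of the Laurent polynomial `F` of minimal
weight `l · e`, so `σ` is the face of the Newton polytope of `F` on which the linear form `l` is
minimal. This is the value of the logarithmic derivative `∑ j, a j * (Y j * ∂ F_σ / ∂ Y j)` at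
the point `z`. -/
noncomputable def faceDerivative {k : Type} [Field k] {n : ℕ} (F : (Fin n → ℤ) →₀ k)
    (l : Fin n → ℤ) (z a : Fin n → AlgebraicClosure k) : AlgebraicClosure k :=
  ∑ e ∈ F.support.filter (fun e => ∀ e' ∈ F.support, ∑ j, l j * e j ≤ ∑ j, l j * e' j),
    algebraMap k (AlgebraicClosure k) (F e) * (∑ j, (e j : AlgebraicClosure k) * a j) *
      ∏ j, z j ^ e j

/-- The Laurent polynomials `F 1, ..., F s` over `k` are jointly nondegenerate at infinity,
strongly for the indices in `T`: for all `l ∈ ℤ^n` and all points `z` of the torus over the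
algebraic closure of `k`, if `t ∈ T` or `F t` has a term of negative weight `l · e`, then there is
a direction `a` in which the logarithmic derivative of the part of `F t` of minimal weight does not
vanish at `z`, while for all `t' ≠ t` such that `t' ∈ T` or `F t'` has a term of weight `≤ 0` the
logarithmic derivative of the part of `F t'` of minimal weight vanishes at `z`.

For a single Laurent polynomial `F` and empty `T` this says that for all faces `σ` of the Newton
polytope at infinity (the convex hull of the exponents and of the origin) which do not contain the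
origin the partial derivatives `∂ F_σ / ∂ Y j` have no common zero in the torus. For monomials
`F t = Y ^ (e t)` and arbitrary `T` it holds if the exponents `e t` are linearly independent
modulo `p`. -/
def JointlyNondegenerate {k : Type} [Field k] {n s : ℕ} (F : Fin s → (Fin n → ℤ) →₀ k)
    (T : Set (Fin s)) : Prop :=
  ∀ (l : Fin n → ℤ) (z : Fin n → AlgebraicClosure k), (∀ j, z j ≠ 0) → ∀ t,
    (t ∈ T ∨ ∃ e ∈ (F t).support, ∑ j, l j * e j < 0) →
    ∃ a : Fin n → AlgebraicClosure k, faceDerivative (F t) l z a ≠ 0 ∧
      ∀ t', t' ≠ t → (t' ∈ T ∨ ∃ e ∈ (F t').support, ∑ j, l j * e j ≤ 0) →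
        faceDerivative (F t') l z a = 0

/-- The local domain `R` admits local uniformization: for every valuation ring `V` of the fraction
field `K` of `R` centred on `R` there is a finitely generated `R`-algebra `B` in `V` whose
localization at the centre `P` of `V` is regular. -/
def AdmitsLocalUniformization (R : Type) [CommRing R] : Prop :=
  ∀ (K : Type) [Field K] [Algebra R K] [IsFractionRing R K] (V : ValuationSubring K),
    (∀ r : R, algebraMap R K r ∈ V) →
    (∀ r : R, r ∈ nonunits R ↔ V.valuation (algebraMap R K r) < 1) →
    ∃ B : Subalgebra R K, B.FG ∧ (∀ b : B, (b : K) ∈ V) ∧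
      ∃ P : Ideal B, ∃ (_ : P.IsPrime),
        (∀ b : B, b ∈ P ↔ V.valuation (b : K) < 1) ∧
        IsRegularLocalRing (Localization.AtPrime P)

/-- Let `k` be a perfect field of characteristic `p` and let `x i 0, x i 1` (`i = 1, ..., m`) and
`y 1, ..., y n` be algebraically independent elements of the field extension `K` of `k`. Let
`f i = P i / Q i` be arbitrary rational functions in two variables and `F 1, ..., F s` Laurent
polynomials in `n` variables over `k`, jointly nondegenerate, strongly for the indices in `T`.
For `t ∈ T` let `b t` be a product of nonzero rational functions of the pairs `x i 0, x i 1`, and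
for `t ∉ T` let `b t = 1`. Suppose that `K` is generated over `k` by the `x i j`, the `y l` and
elements `w 1, ..., w r` such that every `w j ^ p - w j` is a linear combination with integral
coefficients of the `f i (x i 0, x i 1)` and the `b t * F t (y 1, ..., y n)`. Let `A` be a finitely
generated `k`-algebra with fraction field `K` which is integral over the subalgebra generated by
finitely many elements each of which is a product of rational functions in the pairs
`x i 0, x i 1` and a Laurent monomial in `y 1, ..., y n`; for example `k[x, y]`. Then the local ring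
`R` of `Spec A` at any point, that is, the localization of `A` at a prime ideal `q`, admits local
uniformization.

For example, this holds for the local rings of the hypersurfaces
`w ^ p - w = F (y 1, ..., y n)`, for polynomials `F` which are nondegenerate with respect to
their Newton polytope at infinity, and
`w ^ p - w = f_1 (x_1, x_2) + f_2 (x_3, x_4) + b_1 (x) y_1 ^ a_1 + ... + b_n (x) y_n ^ a_n`, for
polynomials `f_1, f_2`, products `b_j` of polynomials in `x_1, x_2` and in `x_3, x_4`, and
`a_1, ..., a_n` prime to `p`. -/
theorem result (p : ℕ) [Fact p.Prime] (k K : Type) [Field k] [PerfectField k] [CharP k p]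
    [Field K] [Algebra k K] (m n r s : ℕ) (x : Fin m → Fin 2 → K) (y : Fin n → K)
    (hxy : AlgebraicIndependent k (Sum.elim (fun q : Fin m × Fin 2 => x q.1 q.2) y))
    (P Q : Fin m → MvPolynomial (Fin 2) k) (hQ : ∀ i, Q i ≠ 0)
    (F : Fin s → (Fin n → ℤ) →₀ k) (T : Set (Fin s)) (hF : JointlyNondegenerate F T)
    (U V : Fin s → Fin m → MvPolynomial (Fin 2) k) (hU : ∀ t i, U t i ≠ 0)
    (hV : ∀ t i, V t i ≠ 0) (b : Fin s → K)
    (hbT : ∀ t ∈ T, b t =
      ∏ i, MvPolynomial.aeval (x i) (U t i) / MvPolynomial.aeval (x i) (V t i))
    (hb : ∀ t ∉ T, b t = 1) (w : Fin r → K)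
    (hw : ∀ j, w j ^ p - w j ∈ AddSubgroup.closure
      ((Set.range fun i => MvPolynomial.aeval (x i) (P i) / MvPolynomial.aeval (x i) (Q i)) ∪
        Set.range fun t => b t * value (F t) y))
    (hgen : IntermediateField.adjoin k (Set.range w ∪
      Set.range (Sum.elim (fun q : Fin m × Fin 2 => x q.1 q.2) y)) = ⊤)
    (A : Type) [CommRing A] [IsDomain A] [Algebra k A] [Algebra.FiniteType k A] [Algebra A K]
    [IsScalarTower k A K] [IsFractionRing A K] (S : Finset A)
    (hS : ∀ a ∈ S, ∃ (R H : Fin m → MvPolynomial (Fin 2) k) (e : Fin n → ℤ),
      (∀ i, R i ≠ 0 ∧ H i ≠ 0) ∧ algebraMap A K a =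
        (∏ i, MvPolynomial.aeval (x i) (R i) / MvPolynomial.aeval (x i) (H i)) *
          ∏ l, y l ^ e l)
    (hA : ∀ a : A, IsIntegral (Algebra.adjoin k (S : Set A)) a)
    (q : Ideal A) [q.IsPrime] (R : Type) [CommRing R] [Algebra A R]
    [IsLocalization.AtPrime R q] : AdmitsLocalUniformization R := by
  have hND : Pool.Agent.TH214.ND F (fun t => t ∈ T) := by
    apply Pool.Agent.TH214.nd_of_ndc
    intro l z hz t ht
    exact hF l z hz t ht
  obtain ⟨T', I, hT, hI, ⟨M⟩⟩ := Pool.Agent.TH214.tw_LM p k K m n x y P Q (Fin s) F
    (fun t => t ∈ T) U V b r w hxy hQ hU hV hND hbT hb hw hgen A S hS hA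
  intro K' _ _ _ W hV1 hV2
  have hR : IsLocalRing R := IsLocalization.AtPrime.isLocalRing R q
  obtain ⟨B', h1, h2, P', hP, h3, h4, h5⟩ := Pool.Agent.W558.WT.uniformized_of_LM2 M q (R := R)
    (K := K') W hV1 (fun r => (IsLocalRing.mem_maximalIdeal r).trans (hV2 r))
  exact ⟨B', h1, h2, P', hP, h3, (IsRegularLocalRing.iff_finrank_cotangentSpace _).2 h5.symm⟩

end Pool.Agent.Results.MP_3029eb_ag.NondegenerateLaurentLU
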