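import Pool.Agent.TH214.V.SchRes
import Pool.Agent.TH214.V.ClosV
import Pool.Agent.W558.WT.LU

/-!
MP_3029eb_ag: local uniformization of the local rings, of all dimensions and at all valuations, of
the varieties over perfect fields of characteristic `p` whose function field is an elementary
abelian extension of exponent `p` of a field `K_0` of the following kind. `K_0` is generated by the
coordinates `x` of an affine space and by nonzero elements `y 1, ..., y n` which satisfy equations
`G i (u, y) = 0`, where `u 1, ..., u h` are products of arbitrary rational functions of pairs of the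
coordinates `x` and the `G i` are Laurent polynomials which are schön with respect to `y` (all
initial degenerations of the equations are smooth over the torus of the `u`); for example
`K_0` is the function field of the product of an affine space and a schön subvariety of a torus,
such as the complement of an arrangement of hyperplanes, or a tame Kummer extension
`y j ^ d_j = u j` of `k (x)`. The extension is given by Artin-Schreier equations `w ^ p - w = g`
whose right-hand sides are integral linear combinations of arbitrary functions of the pairs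
of coordinates `x`, and of Laurent polynomials `F t (u, y)` which are jointly nondegenerate:
either nondegenerate at infinity and involving only `y` (also in the `G i`), or strongly
nondegenerate.

See MP_4d1008_ag.SchonTwistedCovers for the proof.

helper214; built on the library of the starting files (helpers 558, 33, 369, 405, 368, 356, 29,
230, 32, 906, 191, 410, 435, 376, 382, 348, 135, 991, 366, 74, 305, 417, 440, 409, 174, 290, 392,
352, 565, 335, 924, 337, 347, 479, 959, 727, 202 and others).
-/

set_option autoImplicit false

namespace Pool.Agent.Results.MP_3029eb_ag.SchonCoversLU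

/-- The Laurent polynomial `∑ e, F e * (U, Y) ^ e` with exponents `e ∈ ℤ^h × ℤ^n`, evaluated at the
elements `u 1, ..., u h` and `y 1, ..., y n` of a field `K`. -/
noncomputable def value {k K : Type} [Field k] [Field K] [Algebra k K] {h n : ℕ}
    (F : (Fin h ⊕ Fin n → ℤ) →₀ k) (u : Fin h → K) (y : Fin n → K) : K :=
  ∑ e ∈ F.support, F e • ∏ j, Sum.elim u y j ^ e j

/-- The exponents of the initial form of the Laurent polynomial `F` with respect to the
weights `l`: those of minimal weight `l · e`. -/
def initialExponents {k : Type} [Field k] {h n : ℕ} (F : (Fin h ⊕ Fin n → ℤ) →₀ k)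
    (l : Fin h ⊕ Fin n → ℤ) : Finset (Fin h ⊕ Fin n → ℤ) :=
  F.support.filter (fun e => ∀ e' ∈ F.support, ∑ j, l j * e j ≤ ∑ j, l j * e' j)

/-- The value of the initial form of `F` with respect to the weights `l` at the point `z` of the
torus over the algebraic closure of `k`. -/
noncomputable def initialValue {k : Type} [Field k] {h n : ℕ}
    (F : (Fin h ⊕ Fin n → ℤ) →₀ k) (l : Fin h ⊕ Fin n → ℤ)
    (z : Fin h ⊕ Fin n → AlgebraicClosure k) : AlgebraicClosure k :=
  ∑ e ∈ initialExponents F l, algebraMap k (AlgebraicClosure k) (F e) * ∏ j, z j ^ e j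

/-- The vector of the values of the logarithmic partial derivatives `Y i * ∂ / ∂ Y i`,
`i = 1, ..., n` (with respect to the second group of variables only), of the initial form of `F`
with respect to the weights `l` at the point `z`. -/
noncomputable def initialGradient {k : Type} [Field k] {h n : ℕ}
    (F : (Fin h ⊕ Fin n → ℤ) →₀ k) (l : Fin h ⊕ Fin n → ℤ)
    (z : Fin h ⊕ Fin n → AlgebraicClosure k) : Fin n → AlgebraicClosure k :=
  fun i => ∑ e ∈ initialExponents F l,
    algebraMap k (AlgebraicClosure k) (F e) * (e (Sum.inr i) : AlgebraicClosure k) *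
      ∏ j, z j ^ e j

/-- The Laurent polynomials `G 1, ..., G q` in `U` and `Y` are schön equations of codimension at
least `c` with respect to the variables `Y`: for all weights `l ∈ ℤ^h × ℤ^n` and all points
`z` of the torus over the algebraic closure of `k` at which the initial forms of all `G i` vanish
the vectors of the derivatives of these initial forms in the directions of `Y` span a space of
dimension at least `c`. -/
def SchonEquations {k : Type} [Field k] {h n q : ℕ} (G : Fin q → (Fin h ⊕ Fin n → ℤ) →₀ k)
    (c : ℕ) : Prop :=
  ∀ (l : Fin h ⊕ Fin n → ℤ) (z : Fin h ⊕ Fin n → AlgebraicClosure k), (∀ j, z j ≠ 0) →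
    (∀ i, initialValue (G i) l z = 0) →
    c ≤ Module.finrank (AlgebraicClosure k) (Submodule.span (AlgebraicClosure k)
      (Set.range fun i => initialGradient (G i) l z))

/-- The Laurent polynomials `F 1, ..., F s` are jointly nondegenerate, strongly for the indices in
`T`, on the subscheme given by `G 1, ..., G q`: for all weights `l ∈ ℤ^h × ℤ^n` and all points `z` of
the torus over the algebraic closure of `k` at which the initial forms of all `G i` vanish, if
`t ∈ T` or `F t` has a term of negative weight `l · e`, then the vector of the derivatives of the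
initial form of `F t` at `z` in the directions of `Y` is not a linear combination of those of
the `G i` and of those `F t'`, `t' ≠ t`, for which `t' ∈ T` or `F t'` has a term of
weight `≤ 0`. -/
def NondegenerateOn {k : Type} [Field k] {h n q s : ℕ}
    (G : Fin q → (Fin h ⊕ Fin n → ℤ) →₀ k) (F : Fin s → (Fin h ⊕ Fin n → ℤ) →₀ k)
    (T : Set (Fin s)) : Prop :=
  ∀ (l : Fin h ⊕ Fin n → ℤ) (z : Fin h ⊕ Fin n → AlgebraicClosure k), (∀ j, z j ≠ 0) →
    (∀ i, initialValue (G i) l z = 0) → ∀ t, (t ∈ T ∨ ∃ e ∈ (F t).support, ∑ j, l j * e j < 0) →
    initialGradient (F t) l z ∉ Submodule.span (AlgebraicClosure k)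
      ((Set.range fun i => initialGradient (G i) l z) ∪
        {v | ∃ t', t' ≠ t ∧ (t' ∈ T ∨ ∃ e ∈ (F t').support, ∑ j, l j * e j ≤ 0) ∧
          v = initialGradient (F t') l z})

/-- The local domain `R` admits local uniformization: for every valuation ring `V` of the fraction
field `K` of `R` centred on `R` there is a finitely generated `R`-algebra `B` in `V` whose
localization at the centre `P` of `V` is regular. -/
def AdmitsLocalUniformization (R : Type) [CommRing R] : Prop :=
  ∀ (K : Type) [Field K] [Algebra R K] [IsFractionRing R K] (V : ValuationSubring K),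
    (∀ r : R, algebraMap R K r ∈ V) →
    (∀ r : R, r ∈ nonunits R ↔ V.valuation (algebraMap R K r) < 1) →
    ∃ B : Subalgebra R K, B.FG ∧ (∀ b : B, (b : K) ∈ V) ∧
      ∃ P : Ideal B, ∃ (_ : P.IsPrime),
        (∀ b : B, b ∈ P ↔ V.valuation (b : K) < 1) ∧
        IsRegularLocalRing (Localization.AtPrime P)

/-- Let `k` be a perfect field of characteristic `p`. Let `x i 0, x i 1` (`i = 1, ..., m`) and
`y 1, ..., y n` be elements of the field extension `K` of `k`, `y j ≠ 0`, and let `u 1, ..., u h` be
products of nonzero rational functions `U a i / V a i` of the pairs `x i 0, x i 1`. Suppose that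
`G i (u, y) = 0` for Laurent polynomials `G 1, ..., G q` over `k` which are schön equations
of codimension at least `c` with respect to the variables `Y`, and that the `x i j` together with
`d = n - c` of the elements `y 1, ..., y n` are algebraically independent. Let `f i = P i / Q i` be
arbitrary rational functions in two variables, and let the Laurent polynomials `F 1, ..., F s` be
jointly nondegenerate on the subscheme given by the `G i`, strongly for the indices in `T`; if there
is an index `t` not in `T` then the `G i` and these `F t` involve only the variables `Y`. Suppose that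
`K` is generated over `k` by the `x i j`, the `y l` and elements `w 1, ..., w r` such that every
`w j ^ p - w j` is a linear combination with integral coefficients of the `f i (x i 0, x i 1)` and
the `F t (u, y)`. Let `A` be a finitely generated `k`-algebra with fraction field `K` which is
integral over the subalgebra generated by finitely many elements each of which is a product of
rational functions in the pairs `x i 0, x i 1` and a Laurent monomial in `y 1, ..., y n`; for
example `k[x, y]`. Then the local ring `R` of `Spec A` at any point, that is, the localization of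
`A` at a prime ideal `I`, admits local uniformization. -/
theorem result (p : ℕ) [Fact p.Prime] (k K : Type) [Field k] [PerfectField k] [CharP k p]
    [Field K] [Algebra k K] (m n h c d q r s : ℕ) (x : Fin m → Fin 2 → K) (y : Fin n → K)
    (hy : ∀ j, y j ≠ 0) (U V : Fin h → Fin m → MvPolynomial (Fin 2) k) (hU : ∀ a i, U a i ≠ 0)
    (hV : ∀ a i, V a i ≠ 0) (u : Fin h → K)
    (hu : ∀ a, u a = ∏ i, MvPolynomial.aeval (x i) (U a i) / MvPolynomial.aeval (x i) (V a i))
    (G : Fin q → (Fin h ⊕ Fin n → ℤ) →₀ k) (hG : SchonEquations G c)
    (hGy : ∀ i, value (G i) u y = 0) (ρ : Fin d → Fin n) (hn : c + d = n)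
    (hxy : AlgebraicIndependent k (Sum.elim (fun q : Fin m × Fin 2 => x q.1 q.2) (y ∘ ρ)))
    (P Q : Fin m → MvPolynomial (Fin 2) k) (hQ : ∀ i, Q i ≠ 0)
    (F : Fin s → (Fin h ⊕ Fin n → ℤ) →₀ k) (T : Set (Fin s)) (hF : NondegenerateOn G F T)
    (hT : ∀ t ∉ T, (∀ i, ∀ e ∈ (G i).support, ∀ a, e (Sum.inl a) = 0) ∧
      ∀ e ∈ (F t).support, ∀ a, e (Sum.inl a) = 0)
    (w : Fin r → K)
    (hw : ∀ j, w j ^ p - w j ∈ AddSubgroup.closure
      ((Set.range fun i => MvPolynomial.aeval (x i) (P i) / MvPolynomial.aeval (x i) (Q i)) ∪
        Set.range fun t => value (F t) u y))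
    (hgen : IntermediateField.adjoin k (Set.range w ∪
      Set.range (Sum.elim (fun q : Fin m × Fin 2 => x q.1 q.2) y)) = ⊤)
    (A : Type) [CommRing A] [IsDomain A] [Algebra k A] [Algebra.FiniteType k A] [Algebra A K]
    [IsScalarTower k A K] [IsFractionRing A K] (S : Finset A)
    (hS : ∀ a ∈ S, ∃ (R H : Fin m → MvPolynomial (Fin 2) k) (e : Fin n → ℤ),
      (∀ i, R i ≠ 0 ∧ H i ≠ 0) ∧ algebraMap A K a =
        (∏ i, MvPolynomial.aeval (x i) (R i) / MvPolynomial.aeval (x i) (H i)) *
          ∏ l, y l ^ e l)
    (hA : ∀ a : A, IsIntegral (Algebra.adjoin k (S : Set A)) a)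
    (I : Ideal A) [I.IsPrime] (R : Type) [CommRing R] [Algebra A R]
    [IsLocalization.AtPrime R I] : AdmitsLocalUniformization R := by
  have hNDc : Pool.Agent.TH214.V.NDVc G F (Function.Embedding.inr : Fin n ↪ Fin h ⊕ Fin n)
      (fun t => t ∈ T) c := fun l z hz hv => ⟨hG l z hz hv, fun t ht => hF l z hz hv t ht⟩
  have hND := Pool.Agent.TH214.V.ndv_of_ndvc hNDc
  have e1 : (fun j => j ∈ Set.range (Function.Embedding.inr : Fin n ↪ Fin h ⊕ Fin n)) =
      fun j => ((Function.Embedding.refl (Fin h ⊕ Fin n)) j).isRight = true := by
    funext j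
    apply propext
    rcases j with j | j
    · constructor
      · rintro ⟨i, hi⟩
        exact absurd hi (by simp)
      · intro hi
        exact absurd hi (by simp)
    · exact ⟨fun _ => rfl, fun _ => ⟨j, rfl⟩⟩
  rw [e1] at hND
  have hun : ∀ t, ¬ (t ∈ T) → (∀ i, ∀ e ∈ (G i).support, ∀ j,
      ¬ ((Function.Embedding.refl (Fin h ⊕ Fin n)) j).isRight = true → e j = 0) ∧
      ∀ e ∈ (F t).support, ∀ j,
        ¬ ((Function.Embedding.refl (Fin h ⊕ Fin n)) j).isRight = true → e j = 0 := by
    intro t ht
    refine ⟨?_, ?_⟩
    · rintro i e he (j | j) hj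
      · exact (hT t ht).1 i e he j
      · exact absurd rfl hj
    · rintro e he (j | j) hj
      · exact (hT t ht).2 e he j
      · exact absurd rfl hj
  obtain ⟨T', I', hT', hI', ⟨M⟩⟩ := Pool.Agent.TH214.V.sch_LM p k K m n x y hy d c ρ hn
    hxy P Q hQ (Fin h) U V hU hV u hu (Fin h ⊕ Fin n) (Function.Embedding.refl _) (Fin q) (Fin s)
    G F (fun t => t ∈ T) hGy hND hun r w hw hgen A S hS hA
  intro K' _ _ _ W hV1 hV2
  have hR : IsLocalRing R := IsLocalization.AtPrime.isLocalRing R I
  obtain ⟨B', h1, h2, P', hP, h3, h4, h5⟩ := Pool.Agent.W558.WT.uniformized_of_LM2 M I (R := R)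
    (K := K') W hV1 (fun r => (IsLocalRing.mem_maximalIdeal r).trans (hV2 r))
  exact ⟨B', h1, h2, P', hP, h3, (IsRegularLocalRing.iff_finrank_cotangentSpace _).2 h5.symm⟩

end Pool.Agent.Results.MP_3029eb_ag.SchonCoversLU
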