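import Pool.Agent.TH214.Res
import Pool.Agent.TH214.Clos
import Pool.Agent.W418.Z.Reg

/-!
MP_4d1008_ag: regular models, proper over `ℤ`, of the schemes over finite fields of characteristic
`p` whose function field is an elementary abelian extension of exponent `p` of the field of rational
functions, given by Artin-Schreier equations `w ^ p - w = g` whose right-hand sides are sums of
arbitrary functions of pairs of variables `x i`, of Laurent polynomials in further
variables `y` and of products of functions of the `x i` and of Laurent polynomials in `y`, such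
that the Laurent polynomials are jointly nondegenerate with respect to their Newton polytopes at
infinity. All dimensions.

The proof: (1) by toroidal blowups of a product of projective planes (blown up in points) and
projective lines the summands become products of monomials in the equations of the boundary and
functions, whose logarithmic differentials are, by the nondegeneracy, linearly independent at every
point of the poles; (2) this is the normal form from which the starting library (the proof of
MP_19ffc6_ag.SurfaceProductQuotients) produces, by induction on the tower of the Artin-Schreier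
extensions, smooth projective models.

helper214; built on the library of the starting files (helpers 558, 33, 369, 405, 368, 356, 29,
230, 32, 906, 191, 410, 435, 376, 382, 348, 135, 991, 366, 74, 305, 417, 440, 409, 174, 290, 392,
352, 565, 335, 924, 337, 347, 479, 959, 727, 202, 418, 519, 920 and others).
-/

set_option autoImplicit false

open AlgebraicGeometry CategoryTheory

namespace Pool.Agent.Results.MP_4d1008_ag.NondegenerateLaurentCovers

/-- The Laurent polynomial `∑ e, F e * Y ^ e`, `e ∈ ℤ^n`, evaluated at the elements `y 1, ..., y n`
of a field `K`. -/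
noncomputable def value {k K : Type} [Field k] [Field K] [Algebra k K] {n : ℕ}
    (F : (Fin n → ℤ) →₀ k) (y : Fin n → K) : K :=
  ∑ e ∈ F.support, F e • ∏ j, y j ^ e j

/-- Let `F_σ` be the sum of the terms `F e * Y ^ e` of the Laurent polynomial `F` of minimal
weight `l · e`, so `σ` is the face of the Newton polytope of `F` on which the linear form `l` is
minimal. This is the value of the logarithmic derivative `∑ j, a j * (Y j * ∂ F_σ / ∂ Y j)` at
the point `z`. -/
noncomputable def faceDerivative {k : Type} [Field k] {n : ℕ} (F : (Fin n → ℤ) →₀ k)
    (l : Fin n → ℤ) (z a : Fin n → AlgebraicClosure k) : AlgebraicClosure k :=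
  ∑ e ∈ F.support.filter (fun e => ∀ e' ∈ F.support, ∑ j, l j * e j ≤ ∑ j, l j * e' j),
    algebraMap k (AlgebraicClosure k) (F e) * (∑ j, (e j : AlgebraicClosure k) * a j) *
      ∏ j, z j ^ e j

/-- The Laurent polynomials `F 1, ..., F s` over `k` are jointly nondegenerate at infinity,
strongly for the indices in `T`: for all `l ∈ ℤ^n` and all points `z` of the torus over the
algebraic closure of `k`, if `t ∈ T` or `F t` has a term of negative weight `l · e`, then there is
a direction `a` in which the logarithmic derivative of the part of `F t` of minimal weight does not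
vanish at `z`, while for all `t' ≠ t` such that `t' ∈ T` or `F t'` has a term of weight `≤ 0` the
logarithmic derivative of the part of `F t'` of minimal weight vanishes at `z`.

For a single Laurent polynomial `F` and empty `T` this says that for all faces `σ` of the Newton
polytope at infinity (the convex hull of the exponents and of the origin) which do not contain the
origin the partial derivatives `∂ F_σ / ∂ Y j` have no common zero in the torus. For monomials
`F t = Y ^ (e t)` and arbitrary `T` it holds if the exponents `e t` are linearly independent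
modulo `p`. -/
def JointlyNondegenerate {k : Type} [Field k] {n s : ℕ} (F : Fin s → (Fin n → ℤ) →₀ k)
    (T : Set (Fin s)) : Prop :=
  ∀ (l : Fin n → ℤ) (z : Fin n → AlgebraicClosure k), (∀ j, z j ≠ 0) → ∀ t,
    (t ∈ T ∨ ∃ e ∈ (F t).support, ∑ j, l j * e j < 0) →
    ∃ a : Fin n → AlgebraicClosure k, faceDerivative (F t) l z a ≠ 0 ∧
      ∀ t', t' ≠ t → (t' ∈ T ∨ ∃ e ∈ (F t').support, ∑ j, l j * e j ≤ 0) →
        faceDerivative (F t') l z a = 0

/-- Let `k` be a finite field of characteristic `p` and let `x i 0, x i 1` (`i = 1, ..., m`) and
`y 1, ..., y n` be algebraically independent elements of the field extension `K` of `k`. Let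
`f i = P i / Q i` be arbitrary rational functions in two variables and `F 1, ..., F s` Laurent
polynomials in `n` variables over `k`, jointly nondegenerate, strongly for the indices in `T`.
For `t ∈ T` let `b t` be a product of nonzero rational functions of the pairs `x i 0, x i 1`, and
for `t ∉ T` let `b t = 1`. Suppose that `K` is generated over `k` by the `x i j`, the `y l` and
elements `w 1, ..., w r` such that every `w j ^ p - w j` is a linear combination with integral
coefficients of the `f i (x i 0, x i 1)` and the `b t * F t (y 1, ..., y n)`.

Then every integral scheme `Y` of finite type over `ℤ` whose function field is isomorphic to `K`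
has a regular model proper over `ℤ`. For example, this holds for the hypersurfaces
`w ^ p - w = F (y 1, ..., y n)`, for polynomials `F` which are nondegenerate with respect to
their Newton polytope at infinity, and
`w ^ p - w = f_1 (x_1, x_2) + f_2 (x_3, x_4) + b_1 (x) y_1 ^ a_1 + ... + b_n (x) y_n ^ a_n`, for
rational functions `f_1, f_2`, products `b_j` of rational functions in `x_1, x_2` and in
`x_3, x_4`, and `a_1, ..., a_n` prime to `p`. -/
theorem result (p : ℕ) [Fact p.Prime] (k K : Type) [Field k] [Finite k] [CharP k p]
    [Field K] [Algebra k K] (m n r s : ℕ) (x : Fin m → Fin 2 → K) (y : Fin n → K)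
    (hxy : AlgebraicIndependent k (Sum.elim (fun q : Fin m × Fin 2 => x q.1 q.2) y))
    (P Q : Fin m → MvPolynomial (Fin 2) k) (hQ : ∀ i, Q i ≠ 0)
    (F : Fin s → (Fin n → ℤ) →₀ k) (T : Set (Fin s)) (hF : JointlyNondegenerate F T)
    (U V : Fin s → Fin m → MvPolynomial (Fin 2) k) (hU : ∀ t i, U t i ≠ 0)
    (hV : ∀ t i, V t i ≠ 0) (b : Fin s → K)
    (hbT : ∀ t ∈ T, b t =
      ∏ i, MvPolynomial.aeval (x i) (U t i) / MvPolynomial.aeval (x i) (V t i))
    (hb : ∀ t ∉ T, b t = 1) (w : Fin r → K)
    (hw : ∀ j, w j ^ p - w j ∈ AddSubgroup.closure
      ((Set.range fun i => MvPolynomial.aeval (x i) (P i) / MvPolynomial.aeval (x i) (Q i)) ∪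
        Set.range fun t => b t * value (F t) y))
    (hgen : IntermediateField.adjoin k (Set.range w ∪
      Set.range (Sum.elim (fun q : Fin m × Fin 2 => x q.1 q.2) y)) = ⊤)
    (Y : Scheme.{0}) (_ : IsIntegral Y) (g : Y ⟶ Spec (CommRingCat.of ℤ))
    (_ : LocallyOfFiniteType g) (_ : QuasiCompact g)
    (_ : Nonempty (Y.functionField ≃+* K)) :
    ∃ (X' : Scheme.{0}) (_ : IsIntegral X') (g' : X' ⟶ Spec (CommRingCat.of ℤ)),
      IsProper g' ∧
      (∀ x : X',
        (((Module.finrank (IsLocalRing.ResidueField (X'.presheaf.stalk x))
            (IsLocalRing.CotangentSpace (X'.presheaf.stalk x)) : ℕ∞)) : WithBot ℕ∞)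
          = ringKrullDim (X'.presheaf.stalk x)) ∧
      Nonempty (X'.functionField ≃+* Y.functionField) := by
  have hND : Pool.Agent.TH214.ND F (fun t => t ∈ T) := by
    apply Pool.Agent.TH214.nd_of_ndc
    intro l z hz t ht
    exact hF l z hz t ht
  have hcK : CharP K p := charP_of_injective_algebraMap (algebraMap k K).injective p
  obtain ⟨lam, mu, hlm⟩ := Pool.Agent.TH214.exists_coeff p K w _ _ hw
  obtain ⟨T', I, hT, hI, M, Γ, hFn, hR⟩ := Pool.Agent.TH214.tw_model p k K m n x y P Q (Fin s) F
    (fun t => t ∈ T) U V b r w lam mu hxy hQ hU hV hND hbT hb hlm hgen PEmpty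
    (fun b => b.elim) (fun b => b.elim) (fun b => b.elim) (fun b => b.elim) (fun b => b.elim)
    (fun b => b.elim) (fun b => b.elim)
  obtain ⟨X', hX', g', h1, h2, ⟨h3⟩⟩ := Pool.Agent.W418.Z.regular_of_LM M (fun t x => by
    obtain ⟨a, ha, b, hb, hb0, h⟩ := hR t x
    exact ⟨a, ha, b, hb, hb0, by rw [h, div_eq_mul_inv]⟩)
  obtain ⟨ε⟩ := ‹Nonempty (Y.functionField ≃+* K)›
  exact ⟨X', hX', g', h1, h2, ⟨h3.trans ε.symm⟩⟩

end Pool.Agent.Results.MP_4d1008_ag.NondegenerateLaurentCovers
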