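import Pool.Agent.TH214.V.SchResP
import Pool.Agent.TH214.V.ClosV
import Pool.Agent.W418.Z.Reg

/-!
MP_4d1008_ag: regular proper models over `ℤ` for the integral schemes of finite type whose function
field is generated by `p`-th roots over a field `K_0` of the following kind, over a finite field
`k` of characteristic `p`. `K_0` is generated by the coordinates `x` of an affine space and by nonzero elements
`y 1, ..., y n` which satisfy equations `G i (u, y) = 0`, where `u 1, ..., u h` are products of
arbitrary rational functions of pairs of the coordinates `x` and the `G i` are Laurent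
polynomials which are schön with respect to `y` (all initial degenerations of the equations are
smooth over the torus of the `u`); for example `K_0` is the function field of the product of an
affine space and a schön subvariety of a torus, such as the complement of an arrangement of
hyperplanes, or a tame Kummer extension `y j ^ d_j = u j` of `k (x)`. The elements adjoined to
`K_0` are `w j` with `w j ^ p` linear combinations over `k` of arbitrary functions `f i` of the
pairs of coordinates `x`, and of Laurent polynomials `F t (u, y)` whose initial forms have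
differentials, relative to the torus of the `u` and the `G i`, linearly independent everywhere.

See MP_b525bf_ag.SchonInseparable for the construction of the smooth charts, which glue to a
regular scheme proper over `ℤ`.

helper214; built on the library of the starting files (helpers 558, 33, 369, 405, 368, 356, 29,
230, 32, 906, 191, 410, 435, 376, 382, 348, 135, 991, 366, 74, 305, 417, 440, 409, 174, 290, 392,
352, 565, 335, 924, 337, 347, 479, 959, 727, 202, 418, 519, 920 and others) and on the files of
helper188 for towers of inseparable extensions (helpers 188, 715, 971, 558, 90, 153).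
-/

set_option autoImplicit false

open AlgebraicGeometry CategoryTheory

namespace Pool.Agent.Results.MP_4d1008_ag.SchonInseparable

/-- The Laurent polynomial `∑ e, F e * (U, Y) ^ e` with exponents `e ∈ ℤ^h × ℤ^n`, evaluated at the
elements `u 1, ..., u h` and `y 1, ..., y n` of a field `K`. -/
noncomputable def value {k K : Type} [Field k] [Field K] [Algebra k K] {h n : ℕ}
    (F : (Fin h ⊕ Fin n → ℤ) →₀ k) (u : Fin h → K) (y : Fin n → K) : K :=
  ∑ e ∈ F.support, F e • ∏ j, Sum.elim u y j ^ e j

/-- The exponents of the initial form of the Laurent polynomial `F` with respect to the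
weights `l`: those of minimal weight `l · e`. -/
def initialExponents {k : Type} [Field k] {h n : ℕ} (F : (Fin h ⊕ Fin n → ℤ) →₀ k)
    (l : Fin h ⊕ Fin n → ℤ) : Finset (Fin h ⊕ Fin n → ℤ) :=
  F.support.filter (fun e => ∀ e' ∈ F.support, ∑ j, l j * e j ≤ ∑ j, l j * e' j)

/-- The value of the initial form of `F` with respect to the weights `l` at the point `z` of the
torus over the algebraic closure of `k`. -/
noncomputable def initialValue {k : Type} [Field k] {h n : ℕ}
    (F : (Fin h ⊕ Fin n → ℤ) →₀ k) (l : Fin h ⊕ Fin n → ℤ)
    (z : Fin h ⊕ Fin n → AlgebraicClosure k) : AlgebraicClosure k :=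
  ∑ e ∈ initialExponents F l, algebraMap k (AlgebraicClosure k) (F e) * ∏ j, z j ^ e j

/-- The vector of the values of the logarithmic partial derivatives `Y i * ∂ / ∂ Y i`,
`i = 1, ..., n` (with respect to the second group of variables only), of the initial form of `F`
with respect to the weights `l` at the point `z`. -/
noncomputable def initialGradient {k : Type} [Field k] {h n : ℕ}
    (F : (Fin h ⊕ Fin n → ℤ) →₀ k) (l : Fin h ⊕ Fin n → ℤ)
    (z : Fin h ⊕ Fin n → AlgebraicClosure k) : Fin n → AlgebraicClosure k :=
  fun i => ∑ e ∈ initialExponents F l,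
    algebraMap k (AlgebraicClosure k) (F e) * (e (Sum.inr i) : AlgebraicClosure k) *
      ∏ j, z j ^ e j

/-- The Laurent polynomials `G 1, ..., G q` in `U` and `Y` are schön equations of codimension at
least `c` with respect to the variables `Y`: for all weights `l ∈ ℤ^h × ℤ^n` and all points
`z` of the torus over the algebraic closure of `k` at which the initial forms of all `G i` vanish
the vectors of the derivatives of these initial forms in the directions of `Y` span a space of
dimension at least `c`. -/
def SchonEquations {k : Type} [Field k] {h n q : ℕ} (G : Fin q → (Fin h ⊕ Fin n → ℤ) →₀ k)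
    (c : ℕ) : Prop :=
  ∀ (l : Fin h ⊕ Fin n → ℤ) (z : Fin h ⊕ Fin n → AlgebraicClosure k), (∀ j, z j ≠ 0) →
    (∀ i, initialValue (G i) l z = 0) →
    c ≤ Module.finrank (AlgebraicClosure k) (Submodule.span (AlgebraicClosure k)
      (Set.range fun i => initialGradient (G i) l z))

/-- The Laurent polynomials `F 1, ..., F s` are strongly nondegenerate on the subscheme given by
`G 1, ..., G q`: for all weights `l ∈ ℤ^h × ℤ^n` and all points `z` of the torus over the algebraic
closure of `k` at which the initial forms of all `G i` vanish the vector of the derivatives of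
the initial form of `F t` at `z` in the directions of `Y` is not a linear combination of those
of the `G i` and of the `F t'`, `t' ≠ t`. -/
def StronglyNondegenerateOn {k : Type} [Field k] {h n q s : ℕ}
    (G : Fin q → (Fin h ⊕ Fin n → ℤ) →₀ k) (F : Fin s → (Fin h ⊕ Fin n → ℤ) →₀ k) : Prop :=
  ∀ (l : Fin h ⊕ Fin n → ℤ) (z : Fin h ⊕ Fin n → AlgebraicClosure k), (∀ j, z j ≠ 0) →
    (∀ i, initialValue (G i) l z = 0) → ∀ t,
    initialGradient (F t) l z ∉ Submodule.span (AlgebraicClosure k)
      ((Set.range fun i => initialGradient (G i) l z) ∪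
        {v | ∃ t', t' ≠ t ∧ v = initialGradient (F t') l z})

/-- Let `k` be a finite field of characteristic `p`. Let `x i 0, x i 1` (`i = 1, ..., m`) and
`y 1, ..., y n` be elements of the field extension `K` of `k`, `y j ≠ 0`, and let `u 1, ..., u h` be
products of nonzero rational functions `U a i / V a i` of the pairs `x i 0, x i 1`. Suppose that
`G i (u, y) = 0` for Laurent polynomials `G 1, ..., G q` over `k` which are schön equations
of codimension at least `c` with respect to the variables `Y`, and that the `x i j` together with
`d = n - c` of the elements `y 1, ..., y n` are algebraically independent. Let `f i = P i / Q i` be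
arbitrary rational functions in two variables, and let the Laurent polynomials `F 1, ..., F s` be
strongly nondegenerate on the subscheme given by the `G i`. Suppose that `K` is generated over `k`
by the `x i j`, the `y l` and elements `w 1, ..., w r` such that every `w j ^ p` is a linear
combination with coefficients in `k` of the `f i (x i 0, x i 1)` and the `F t (u, y)`.

Then every integral scheme `Y` of finite type over `ℤ` whose function field is isomorphic to `K`
has a regular model proper over `ℤ`. -/
theorem result (p : ℕ) [Fact p.Prime] (k K : Type) [Field k] [Finite k] [CharP k p]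
    [Field K] [Algebra k K] (m n h c d q r s : ℕ) (x : Fin m → Fin 2 → K) (y : Fin n → K)
    (hy : ∀ j, y j ≠ 0) (U V : Fin h → Fin m → MvPolynomial (Fin 2) k) (hU : ∀ a i, U a i ≠ 0)
    (hV : ∀ a i, V a i ≠ 0) (u : Fin h → K)
    (hu : ∀ a, u a = ∏ i, MvPolynomial.aeval (x i) (U a i) / MvPolynomial.aeval (x i) (V a i))
    (G : Fin q → (Fin h ⊕ Fin n → ℤ) →₀ k) (hG : SchonEquations G c)
    (hGy : ∀ i, value (G i) u y = 0) (ρ : Fin d → Fin n) (hn : c + d = n)
    (hxy : AlgebraicIndependent k (Sum.elim (fun q : Fin m × Fin 2 => x q.1 q.2) (y ∘ ρ)))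
    (P Q : Fin m → MvPolynomial (Fin 2) k) (hQ : ∀ i, Q i ≠ 0)
    (F : Fin s → (Fin h ⊕ Fin n → ℤ) →₀ k) (hF : StronglyNondegenerateOn G F)
    (w : Fin r → K)
    (hw : ∀ j, w j ^ p ∈ Submodule.span k
      ((Set.range fun i => MvPolynomial.aeval (x i) (P i) / MvPolynomial.aeval (x i) (Q i)) ∪
        Set.range fun t => value (F t) u y))
    (hgen : IntermediateField.adjoin k (Set.range w ∪
      Set.range (Sum.elim (fun q : Fin m × Fin 2 => x q.1 q.2) y)) = ⊤)
    (Y : Scheme.{0}) (_ : IsIntegral Y) (g : Y ⟶ Spec (CommRingCat.of ℤ))
    (_ : LocallyOfFiniteType g) (_ : QuasiCompact g)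
    (_ : Nonempty (Y.functionField ≃+* K)) :
    ∃ (X' : Scheme.{0}) (_ : IsIntegral X') (g' : X' ⟶ Spec (CommRingCat.of ℤ)),
      IsProper g' ∧
      (∀ x : X',
        (((Module.finrank (IsLocalRing.ResidueField (X'.presheaf.stalk x))
            (IsLocalRing.CotangentSpace (X'.presheaf.stalk x)) : ℕ∞)) : WithBot ℕ∞)
          = ringKrullDim (X'.presheaf.stalk x)) ∧
      Nonempty (X'.functionField ≃+* Y.functionField) := by
  have hNDc : Pool.Agent.TH214.V.NDVc G F (Function.Embedding.inr : Fin n ↪ Fin h ⊕ Fin n)
      (fun _ => True) c := by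
    intro l z hz hv
    refine ⟨hG l z hz hv, fun t _ => ?_⟩
    have h1 := hF l z hz hv t
    have h2 : {v | ∃ t', t' ≠ t ∧ (True ∨ ∃ e ∈ (F t').support, ∑ j, l j * e j ≤ 0) ∧
        v = Pool.Agent.TH214.V.gv (F t') (Function.Embedding.inr : Fin n ↪ Fin h ⊕ Fin n) l z} =
        {v | ∃ t', t' ≠ t ∧ v = initialGradient (F t') l z} := by
      ext v
      constructor
      · rintro ⟨t', h3, h4, h5⟩
        exact ⟨t', h3, h5⟩
      · rintro ⟨t', h3, h5⟩
        exact ⟨t', h3, Or.inl trivial, h5⟩
    rw [h2]
    exact h1
  have hND := Pool.Agent.TH214.V.ndv_of_ndvc hNDc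
  have e1 : (fun j => j ∈ Set.range (Function.Embedding.inr : Fin n ↪ Fin h ⊕ Fin n)) =
      fun j => ((Function.Embedding.refl (Fin h ⊕ Fin n)) j).isRight = true := by
    funext j
    apply propext
    rcases j with j | j
    · constructor
      · rintro ⟨i, hi⟩
        exact absurd hi (by simp)
      · intro hi
        exact absurd hi (by simp)
    · exact ⟨fun _ => rfl, fun _ => ⟨j, rfl⟩⟩
  rw [e1] at hND
  obtain ⟨lam, mu, hlm⟩ := Pool.Agent.TH214.V.exists_coeffP _ _ hw
  obtain ⟨T', I, hT', hI, M, Γ, hFn, hR⟩ := Pool.Agent.TH214.V.schp_model p k K m n x y hy d c ρ hn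
    hxy P Q hQ (Fin h) U V hU hV u hu (Fin h ⊕ Fin n) (Function.Embedding.refl _) (Fin q) (Fin s)
    G F hGy hND r w lam mu hlm hgen
  obtain ⟨X', hX', g', h1, h2, ⟨h3⟩⟩ := Pool.Agent.W418.Z.regular_of_LM M (fun t x => by
    obtain ⟨a, ha, b, hb, hb0, h⟩ := hR t x
    exact ⟨a, ha, b, hb, hb0, by rw [h, div_eq_mul_inv]⟩)
  obtain ⟨ε⟩ := ‹Nonempty (Y.functionField ≃+* K)›
  exact ⟨X', hX', g', h1, h2, ⟨h3.trans ε.symm⟩⟩

end Pool.Agent.Results.MP_4d1008_ag.SchonInseparable
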