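import Pool.Agent.TH214.V.SchRes
import Pool.Agent.TH214.V.ClosV
import Pool.Agent.W418.Z.Reg

/-!
MP_4d1008_ag: regular proper models over `ℤ` for the integral schemes of finite type whose function
field is an elementary abelian extension of exponent `p` of a field `K_0` of the following kind,
over a finite field `k` of characteristic `p`. `K_0` is generated by the coordinates `x` of an
affine space and by nonzero elements `y 1, ..., y n` which satisfy equations `G i (u, y) = 0`, where
`u 1, ..., u h` are products of arbitrary rational functions of pairs of the coordinates `x` and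
the `G i` are Laurent polynomials which are schön with respect to `y` (all initial degenerations
of the equations are smooth over the torus of the `u`); for example `K_0` is the function field of
the product of an affine space and a schön subvariety of a torus, such as the complement of an
arrangement of hyperplanes, or a tame Kummer extension `y j ^ d_j = u j` of `k (x)`. The extension
is given by Artin-Schreier equations `w ^ p - w = g` whose right-hand sides are integral linear
combinations of arbitrary functions of the pairs of coordinates `x`, and of Laurent polynomials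
`F t (u, y)` which are jointly nondegenerate: either nondegenerate at infinity and involving only
`y` (also in the `G i`), or strongly nondegenerate. For `K_0` rational and
`F t (u, y) = b_t (x) * F_t (y)` this is MP_4d1008_ag.NondegenerateLaurentCovers.

The proof: (1) the surfaces are blown up in points until the functions `f i` have a normal form
`a ^ p - a + x ^ n * h` such that the logarithmic form of `x ^ n * h` has no zeros on its poles
and all other functions are locally monomials; (2) on a toroidal blowup of the product of the
surfaces and of a compactified torus adapted to the Newton polytopes the closure of the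
subvariety is smooth and has normal crossings with the boundary: the strict transforms of the
equations have independent differentials in directions tangent to the strata of the boundary,
and generate the ideal of the closure by a dimension count and Nakayama's lemma; (3) corrections by
logarithmic vectors of the torus tangent to the subvariety show that the logarithmic
differentials of the polar parts of all the summands are linearly independent at every point
of the closure on their poles; (4) this is the normal form from which the starting library (the
proof of MP_19ffc6_ag.SurfaceProductQuotients) produces smooth models of the tower of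
Artin-Schreier extensions; (5) the smooth charts glue to a regular scheme proper over `ℤ`.

helper214; built on the library of the starting files (helpers 558, 33, 369, 405, 368, 356, 29,
230, 32, 906, 191, 410, 435, 376, 382, 348, 135, 991, 366, 74, 305, 417, 440, 409, 174, 290, 392,
352, 565, 335, 924, 337, 347, 479, 959, 727, 202, 418, 519, 920 and others).
-/

set_option autoImplicit false

open AlgebraicGeometry CategoryTheory

namespace Pool.Agent.Results.MP_4d1008_ag.SchonTwistedCovers

/-- The Laurent polynomial `∑ e, F e * (U, Y) ^ e` with exponents `e ∈ ℤ^h × ℤ^n`, evaluated at the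
elements `u 1, ..., u h` and `y 1, ..., y n` of a field `K`. -/
noncomputable def value {k K : Type} [Field k] [Field K] [Algebra k K] {h n : ℕ}
    (F : (Fin h ⊕ Fin n → ℤ) →₀ k) (u : Fin h → K) (y : Fin n → K) : K :=
  ∑ e ∈ F.support, F e • ∏ j, Sum.elim u y j ^ e j

/-- The exponents of the initial form of the Laurent polynomial `F` with respect to the
weights `l`: those of minimal weight `l · e`. -/
def initialExponents {k : Type} [Field k] {h n : ℕ} (F : (Fin h ⊕ Fin n → ℤ) →₀ k)
    (l : Fin h ⊕ Fin n → ℤ) : Finset (Fin h ⊕ Fin n → ℤ) :=
  F.support.filter (fun e => ∀ e' ∈ F.support, ∑ j, l j * e j ≤ ∑ j, l j * e' j)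

/-- The value of the initial form of `F` with respect to the weights `l` at the point `z` of the
torus over the algebraic closure of `k`. -/
noncomputable def initialValue {k : Type} [Field k] {h n : ℕ}
    (F : (Fin h ⊕ Fin n → ℤ) →₀ k) (l : Fin h ⊕ Fin n → ℤ)
    (z : Fin h ⊕ Fin n → AlgebraicClosure k) : AlgebraicClosure k :=
  ∑ e ∈ initialExponents F l, algebraMap k (AlgebraicClosure k) (F e) * ∏ j, z j ^ e j

/-- The vector of the values of the logarithmic partial derivatives `Y i * ∂ / ∂ Y i`,
`i = 1, ..., n` (with respect to the second group of variables only), of the initial form of `F`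
with respect to the weights `l` at the point `z`. -/
noncomputable def initialGradient {k : Type} [Field k] {h n : ℕ}
    (F : (Fin h ⊕ Fin n → ℤ) →₀ k) (l : Fin h ⊕ Fin n → ℤ)
    (z : Fin h ⊕ Fin n → AlgebraicClosure k) : Fin n → AlgebraicClosure k :=
  fun i => ∑ e ∈ initialExponents F l,
    algebraMap k (AlgebraicClosure k) (F e) * (e (Sum.inr i) : AlgebraicClosure k) *
      ∏ j, z j ^ e j

/-- The Laurent polynomials `G 1, ..., G q` in `U` and `Y` are schön equations of codimension at
least `c` with respect to the variables `Y`: for all weights `l ∈ ℤ^h × ℤ^n` and all points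
`z` of the torus over the algebraic closure of `k` at which the initial forms of all `G i` vanish
the vectors of the derivatives of these initial forms in the directions of `Y` span a space of
dimension at least `c`. -/
def SchonEquations {k : Type} [Field k] {h n q : ℕ} (G : Fin q → (Fin h ⊕ Fin n → ℤ) →₀ k)
    (c : ℕ) : Prop :=
  ∀ (l : Fin h ⊕ Fin n → ℤ) (z : Fin h ⊕ Fin n → AlgebraicClosure k), (∀ j, z j ≠ 0) →
    (∀ i, initialValue (G i) l z = 0) →
    c ≤ Module.finrank (AlgebraicClosure k) (Submodule.span (AlgebraicClosure k)
      (Set.range fun i => initialGradient (G i) l z))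

/-- The Laurent polynomials `F 1, ..., F s` are jointly nondegenerate, strongly for the indices in
`T`, on the subscheme given by `G 1, ..., G q`: for all weights `l ∈ ℤ^h × ℤ^n` and all points `z` of
the torus over the algebraic closure of `k` at which the initial forms of all `G i` vanish, if
`t ∈ T` or `F t` has a term of negative weight `l · e`, then the vector of the derivatives of the
initial form of `F t` at `z` in the directions of `Y` is not a linear combination of those of
the `G i` and of those `F t'`, `t' ≠ t`, for which `t' ∈ T` or `F t'` has a term of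
weight `≤ 0`. -/
def NondegenerateOn {k : Type} [Field k] {h n q s : ℕ}
    (G : Fin q → (Fin h ⊕ Fin n → ℤ) →₀ k) (F : Fin s → (Fin h ⊕ Fin n → ℤ) →₀ k)
    (T : Set (Fin s)) : Prop :=
  ∀ (l : Fin h ⊕ Fin n → ℤ) (z : Fin h ⊕ Fin n → AlgebraicClosure k), (∀ j, z j ≠ 0) →
    (∀ i, initialValue (G i) l z = 0) → ∀ t, (t ∈ T ∨ ∃ e ∈ (F t).support, ∑ j, l j * e j < 0) →
    initialGradient (F t) l z ∉ Submodule.span (AlgebraicClosure k)
      ((Set.range fun i => initialGradient (G i) l z) ∪
        {v | ∃ t', t' ≠ t ∧ (t' ∈ T ∨ ∃ e ∈ (F t').support, ∑ j, l j * e j ≤ 0) ∧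
          v = initialGradient (F t') l z})

/-- Let `k` be a finite field of characteristic `p`. Let `x i 0, x i 1` (`i = 1, ..., m`) and
`y 1, ..., y n` be elements of the field extension `K` of `k`, `y j ≠ 0`, and let `u 1, ..., u h` be
products of nonzero rational functions `U a i / V a i` of the pairs `x i 0, x i 1`. Suppose that
`G i (u, y) = 0` for Laurent polynomials `G 1, ..., G q` over `k` which are schön equations
of codimension at least `c` with respect to the variables `Y`, and that the `x i j` together with
`d = n - c` of the elements `y 1, ..., y n` are algebraically independent. Let `f i = P i / Q i` be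
arbitrary rational functions in two variables, and let the Laurent polynomials `F 1, ..., F s` be
jointly nondegenerate on the subscheme given by the `G i`, strongly for the indices in `T`; if there
is an index `t` not in `T` then the `G i` and these `F t` involve only the variables `Y`. Suppose that
`K` is generated over `k` by the `x i j`, the `y l` and elements `w 1, ..., w r` such that every
`w j ^ p - w j` is a linear combination with integral coefficients of the `f i (x i 0, x i 1)` and
the `F t (u, y)`.

Then every integral scheme `Y` of finite type over `ℤ` whose function field is isomorphic to `K`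
has a regular model proper over `ℤ`. -/
theorem result (p : ℕ) [Fact p.Prime] (k K : Type) [Field k] [Finite k] [CharP k p]
    [Field K] [Algebra k K] (m n h c d q r s : ℕ) (x : Fin m → Fin 2 → K) (y : Fin n → K)
    (hy : ∀ j, y j ≠ 0) (U V : Fin h → Fin m → MvPolynomial (Fin 2) k) (hU : ∀ a i, U a i ≠ 0)
    (hV : ∀ a i, V a i ≠ 0) (u : Fin h → K)
    (hu : ∀ a, u a = ∏ i, MvPolynomial.aeval (x i) (U a i) / MvPolynomial.aeval (x i) (V a i))
    (G : Fin q → (Fin h ⊕ Fin n → ℤ) →₀ k) (hG : SchonEquations G c)
    (hGy : ∀ i, value (G i) u y = 0) (ρ : Fin d → Fin n) (hn : c + d = n)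
    (hxy : AlgebraicIndependent k (Sum.elim (fun q : Fin m × Fin 2 => x q.1 q.2) (y ∘ ρ)))
    (P Q : Fin m → MvPolynomial (Fin 2) k) (hQ : ∀ i, Q i ≠ 0)
    (F : Fin s → (Fin h ⊕ Fin n → ℤ) →₀ k) (T : Set (Fin s)) (hF : NondegenerateOn G F T)
    (hT : ∀ t ∉ T, (∀ i, ∀ e ∈ (G i).support, ∀ a, e (Sum.inl a) = 0) ∧
      ∀ e ∈ (F t).support, ∀ a, e (Sum.inl a) = 0)
    (w : Fin r → K)
    (hw : ∀ j, w j ^ p - w j ∈ AddSubgroup.closure
      ((Set.range fun i => MvPolynomial.aeval (x i) (P i) / MvPolynomial.aeval (x i) (Q i)) ∪
        Set.range fun t => value (F t) u y))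
    (hgen : IntermediateField.adjoin k (Set.range w ∪
      Set.range (Sum.elim (fun q : Fin m × Fin 2 => x q.1 q.2) y)) = ⊤)
    (Y : Scheme.{0}) (_ : IsIntegral Y) (g : Y ⟶ Spec (CommRingCat.of ℤ))
    (_ : LocallyOfFiniteType g) (_ : QuasiCompact g)
    (_ : Nonempty (Y.functionField ≃+* K)) :
    ∃ (X' : Scheme.{0}) (_ : IsIntegral X') (g' : X' ⟶ Spec (CommRingCat.of ℤ)),
      IsProper g' ∧
      (∀ x : X',
        (((Module.finrank (IsLocalRing.ResidueField (X'.presheaf.stalk x))
            (IsLocalRing.CotangentSpace (X'.presheaf.stalk x)) : ℕ∞)) : WithBot ℕ∞)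
          = ringKrullDim (X'.presheaf.stalk x)) ∧
      Nonempty (X'.functionField ≃+* Y.functionField) := by
  have hNDc : Pool.Agent.TH214.V.NDVc G F (Function.Embedding.inr : Fin n ↪ Fin h ⊕ Fin n)
      (fun t => t ∈ T) c := fun l z hz hv => ⟨hG l z hz hv, fun t ht => hF l z hz hv t ht⟩
  have hND := Pool.Agent.TH214.V.ndv_of_ndvc hNDc
  have e1 : (fun j => j ∈ Set.range (Function.Embedding.inr : Fin n ↪ Fin h ⊕ Fin n)) =
      fun j => ((Function.Embedding.refl (Fin h ⊕ Fin n)) j).isRight = true := by
    funext j
    apply propext
    rcases j with j | j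
    · constructor
      · rintro ⟨i, hi⟩
        exact absurd hi (by simp)
      · intro hi
        exact absurd hi (by simp)
    · exact ⟨fun _ => rfl, fun _ => ⟨j, rfl⟩⟩
  rw [e1] at hND
  have hun : ∀ t, ¬ (t ∈ T) → (∀ i, ∀ e ∈ (G i).support, ∀ j,
      ¬ ((Function.Embedding.refl (Fin h ⊕ Fin n)) j).isRight = true → e j = 0) ∧
      ∀ e ∈ (F t).support, ∀ j,
        ¬ ((Function.Embedding.refl (Fin h ⊕ Fin n)) j).isRight = true → e j = 0 := by
    intro t ht
    refine ⟨?_, ?_⟩
    · rintro i e he (j | j) hj
      · exact (hT t ht).1 i e he j
      · exact absurd rfl hj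
    · rintro e he (j | j) hj
      · exact (hT t ht).2 e he j
      · exact absurd rfl hj
  have hcK : CharP K p := charP_of_injective_algebraMap (algebraMap k K).injective p
  obtain ⟨lam, mu, hlm⟩ := Pool.Agent.TH214.exists_coeff p K w _ _ hw
  obtain ⟨T', I, hT', hI, M, Γ, hFn, hR⟩ := Pool.Agent.TH214.V.sch_model p k K m n x y hy d c ρ hn
    hxy P Q hQ (Fin h) U V hU hV u hu (Fin h ⊕ Fin n) (Function.Embedding.refl _) (Fin q) (Fin s)
    G F (fun t => t ∈ T) hGy hND hun r w lam mu hlm hgen
  obtain ⟨X', hX', g', h1, h2, ⟨h3⟩⟩ := Pool.Agent.W418.Z.regular_of_LM M (fun t x => by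
    obtain ⟨a, ha, b, hb, hb0, h⟩ := hR t x
    exact ⟨a, ha, b, hb, hb0, by rw [h, div_eq_mul_inv]⟩)
  obtain ⟨ε⟩ := ‹Nonempty (Y.functionField ≃+* K)›
  exact ⟨X', hX', g', h1, h2, ⟨h3.trans ε.symm⟩⟩

end Pool.Agent.Results.MP_4d1008_ag.SchonTwistedCovers
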