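import Pool.Agent.TH214.Insep
import Pool.Agent.TH214.Clos

/-!
MP_b525bf_ag: resolution of singularities, in all dimensions, of the varieties over a perfect field
of characteristic `p` whose function field is the purely inseparable extension `k (x, y, z)` of the
field of rational functions given by an equation `z ^ p = g`, where `g` is a sum of arbitrary
functions `f i` of separate pairs of variables and of twisted terms `b t (x) * F t (y)`, where `b t`
is a product of arbitrary functions of the pairs of variables, and the Laurent polynomials `F t`
in further variables are such that the differentials of their face parts are linearly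
independent on the torus. For example
`z ^ p = f_1 (x_1, x_2) + f_2 (x_3, x_4) + b_1 (x) y_1 ^ a_1 + ... + b_n (x) y_n ^ a_n` with
`a_j` prime to `p`.

The proof: (1) the surfaces are blown up in points until the functions `f i` have a normal form
`a ^ p + x ^ n * h` such that the logarithmic form of `x ^ n * h` has no zeros (Giraud's theorem) and
all other functions are locally monomials; (2) on toroidal blowups of the product of the
surfaces and of a compactified torus the twisted terms become products of monomials in the
equations of the boundary and functions; logarithmic tangent vectors of the torus, and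
corrections of those of the surfaces by those, show that the logarithmic differentials of all
summands are linearly independent at every point; (3) then the sum `g` has a normal form of
the same kind after further blowups, and the library of the starting files (the proof of
purely inseparable case, helper558) gives smooth models of the extension.

helper214; built on the library of the starting files (helpers 558, 33, 369, 405, 368, 356, 29,
230, 32, 906, 191, 410, 435, 376, 382, 348, 135, 991, 366, 74, 305, 417, 440, 409, 174, 290, 392,
352, 565, 335, 924, 337, 347, 479, 959, 727, 202 and others).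
-/

set_option autoImplicit false

open AlgebraicGeometry CategoryTheory Pool.Agent.W558

universe u

namespace Pool.Agent.Results.MP_b525bf_ag.NondegenerateInseparable

/-- The Laurent polynomial `∑ e, F e * Y ^ e`, `e ∈ ℤ^n`, evaluated at the elements `y 1, ..., y n`
of a field `K`. -/
noncomputable def value {k K : Type u} [Field k] [Field K] [Algebra k K] {n : ℕ}
    (F : (Fin n → ℤ) →₀ k) (y : Fin n → K) : K :=
  ∑ e ∈ F.support, F e • ∏ j, y j ^ e j

/-- Let `F_σ` be the sum of the terms `F e * Y ^ e` of the Laurent polynomial `F` of minimal
weight `l · e`, so `σ` is the face of the Newton polytope of `F` on which the linear form `l` is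
minimal. This is the value of the logarithmic derivative `∑ j, a j * (Y j * ∂ F_σ / ∂ Y j)` at
the point `z`. -/
noncomputable def faceDerivative {k : Type u} [Field k] {n : ℕ} (F : (Fin n → ℤ) →₀ k)
    (l : Fin n → ℤ) (z a : Fin n → AlgebraicClosure k) : AlgebraicClosure k :=
  ∑ e ∈ F.support.filter (fun e => ∀ e' ∈ F.support, ∑ j, l j * e j ≤ ∑ j, l j * e' j),
    algebraMap k (AlgebraicClosure k) (F e) * (∑ j, (e j : AlgebraicClosure k) * a j) *
      ∏ j, z j ^ e j

/-- The Laurent polynomials `F 1, ..., F s` over `k` are strongly nondegenerate: for all
`l ∈ ℤ^n` and all points `z` of the torus over the algebraic closure of `k` the logarithmic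
differentials at `z` of the parts of minimal weight `l · e` of the `F t` are linearly
independent: for every `t` there is a direction `a` in which the logarithmic derivative
of the part of `F t` does not vanish, while those of the other `F t'` vanish. For monomials
`F t = Y ^ (e t)` this says that the exponents `e t` are linearly independent modulo `p`. -/
def StronglyNondegenerate {k : Type u} [Field k] {n s : ℕ} (F : Fin s → (Fin n → ℤ) →₀ k) :
    Prop :=
  ∀ (l : Fin n → ℤ) (z : Fin n → AlgebraicClosure k), (∀ j, z j ≠ 0) → ∀ t,
    ∃ a : Fin n → AlgebraicClosure k, faceDerivative (F t) l z a ≠ 0 ∧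
      ∀ t', t' ≠ t → faceDerivative (F t') l z a = 0

/-- Let `k` be a perfect field of characteristic `p` and let `x i 0, x i 1` (`i = 1, ..., m`) and
`y 1, ..., y n` be algebraically independent elements of the field extension `K` of `k`. Let
`f i = P i / Q i` be arbitrary rational functions in two variables, let `F 1, ..., F s` be strongly
nondegenerate Laurent polynomials in `n` variables over `k`, and let `b t` be a product of
nonzero rational functions `U t i / V t i` of the pairs `x i 0, x i 1`. Suppose that `K` is
generated over `k` by the `x i j`, the `y l` and an element `z` with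
`z ^ p = f 1 (x 1 0, x 1 1) + ... + f m (x m 0, x m 1) + b 1 * F 1 (y) + ... + b s * F s (y)`.
Let `A` be a finitely generated `k`-algebra with fraction field `K` which is integral over the
subalgebra generated by finitely many elements each of which is a product of rational functions
in the pairs `x i 0, x i 1` and a Laurent monomial in `y 1, ..., y n`; for example `k[x, y]`. Then the
variety `Spec A` has a resolution of singularities. -/
theorem result (p : ℕ) [Fact p.Prime] (k K : Type u) [Field k] [PerfectField k] [CharP k p]
    [Field K] [Algebra k K] (m n s : ℕ) (x : Fin m → Fin 2 → K) (y : Fin n → K)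
    (hxy : AlgebraicIndependent k (Sum.elim (fun q : Fin m × Fin 2 => x q.1 q.2) y))
    (P Q : Fin m → MvPolynomial (Fin 2) k) (hQ : ∀ i, Q i ≠ 0)
    (F : Fin s → (Fin n → ℤ) →₀ k) (hF : StronglyNondegenerate F)
    (U V : Fin s → Fin m → MvPolynomial (Fin 2) k) (hU : ∀ t i, U t i ≠ 0)
    (hV : ∀ t i, V t i ≠ 0) (z : K)
    (hz : z ^ p = ∑ i, MvPolynomial.aeval (x i) (P i) / MvPolynomial.aeval (x i) (Q i) +
      ∑ t, (∏ i, MvPolynomial.aeval (x i) (U t i) / MvPolynomial.aeval (x i) (V t i)) *
        value (F t) y)
    (hgen : IntermediateField.adjoin k
      (insert z (Set.range (Sum.elim (fun q : Fin m × Fin 2 => x q.1 q.2) y))) = ⊤)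
    (A : Type u) [CommRing A] [IsDomain A] [Algebra k A] [Algebra.FiniteType k A] [Algebra A K]
    [IsScalarTower k A K] [IsFractionRing A K] (S : Finset A)
    (hS : ∀ a ∈ S, ∃ (R H : Fin m → MvPolynomial (Fin 2) k) (e : Fin n → ℤ),
      (∀ i, R i ≠ 0 ∧ H i ≠ 0) ∧ algebraMap A K a =
        (∏ i, MvPolynomial.aeval (x i) (R i) / MvPolynomial.aeval (x i) (H i)) *
          ∏ l, y l ^ e l)
    (hA : ∀ a : A, IsIntegral (Algebra.adjoin k (S : Set A)) a) :
    IsResolvableVariety (X := Spec (CommRingCat.of A))
      (Spec.map (CommRingCat.ofHom (algebraMap k A))) := by
  have hND : Pool.Agent.TH214.ND F (fun _ => True) := by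
    apply Pool.Agent.TH214.nd_of_ndc
    intro l z hz t ht
    obtain ⟨a, h1, h2⟩ := hF l z hz t
    exact ⟨a, h1, fun t' ht' _ => h2 t' ht'⟩
  exact Pool.Agent.TH214.pi_resolution p k K m n x y P Q (Fin s) F U V z hxy hQ hU hV hND hz hgen
    A S hS hA

end Pool.Agent.Results.MP_b525bf_ag.NondegenerateInseparable
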