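import Pool.Agent.TH214.V.SchResP
import Pool.Agent.TH214.V.ClosV

/-!
MP_b525bf_ag: resolution of singularities, in all dimensions, of the varieties over a perfect field
of characteristic `p` whose function field `K` is generated by `p`-th roots over a field `K_0`
as follows. `K_0` is generated by the coordinates `x` of an affine space and by nonzero elements
`y 1, ..., y n` which satisfy equations `G i (u, y) = 0`, where `u 1, ..., u h` are products of
arbitrary rational functions of pairs of the coordinates `x` and the `G i` are
Laurent polynomials which are schön with respect to `y` (all initial degenerations of the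
equations are smooth over the torus of the `u`); for example `K_0` is the function field of the
product of an affine space and a schön subvariety of a torus, such as the complement of an
arrangement of hyperplanes, or a tame Kummer extension `y j ^ d_j = u j` of `k (x)`. The elements
adjoined to `K_0` are `w j` with `w j ^ p` linear combinations over `k` of arbitrary functions
`f i` of the pairs of coordinates `x`, and of Laurent polynomials `F t (u, y)` whose initial forms
have differentials, relative to the torus of the `u` and the `G i`, linearly independent everywhere.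
For `K_0` rational, `F t (u, y) = b_t (x) * F_t (y)` and one `w` this is
MP_b525bf_ag.NondegenerateInseparable.

The proof: (1) the surfaces are blown up in points until the functions `f i` have a normal form
`a ^ p + x ^ n * h` such that the logarithmic form of `x ^ n * h` has no zeros (Giraud's theorem)
and all other functions are locally monomials; (2) on a toroidal blowup of the product of the
surfaces and of a compactified torus adapted to the Newton polytopes the closure of the
subvariety is smooth and has normal crossings with the boundary: the strict transforms of the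
equations have independent differentials in directions tangent to the strata of the boundary,
and generate the ideal of the closure by a dimension count and Nakayama's lemma; (3) corrections by
logarithmic vectors of the torus tangent to the subvariety show that the
logarithmic differentials of all the summands are linearly independent at every point of the
closure; (4) then smooth models of the towers of `p`-th roots are given by MP_b525bf_ag.
InseparableTowers (helper188).

helper214; built on the library of the starting files (helpers 558, 33, 369, 405, 368, 356, 29,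
230, 32, 906, 191, 410, 435, 376, 382, 348, 135, 991, 366, 74, 305, 417, 440, 409, 174, 290, 392,
352, 565, 335, 924, 337, 347, 479, 959, 727, 202 and others) and on the files of helper188 for
towers of inseparable extensions (helpers 188, 715, 971, 558, 90, 153).
-/

set_option autoImplicit false

open AlgebraicGeometry CategoryTheory Pool.Agent.W558

universe u

namespace Pool.Agent.Results.MP_b525bf_ag.SchonInseparable

/-- The Laurent polynomial `∑ e, F e * (U, Y) ^ e` with exponents `e ∈ ℤ^h × ℤ^n`, evaluated at the
elements `u 1, ..., u h` and `y 1, ..., y n` of a field `K`. -/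
noncomputable def value {k K : Type u} [Field k] [Field K] [Algebra k K] {h n : ℕ}
    (F : (Fin h ⊕ Fin n → ℤ) →₀ k) (u : Fin h → K) (y : Fin n → K) : K :=
  ∑ e ∈ F.support, F e • ∏ j, Sum.elim u y j ^ e j

/-- The exponents of the initial form of the Laurent polynomial `F` with respect to the
weights `l`: those of minimal weight `l · e`. -/
def initialExponents {k : Type u} [Field k] {h n : ℕ} (F : (Fin h ⊕ Fin n → ℤ) →₀ k)
    (l : Fin h ⊕ Fin n → ℤ) : Finset (Fin h ⊕ Fin n → ℤ) :=
  F.support.filter (fun e => ∀ e' ∈ F.support, ∑ j, l j * e j ≤ ∑ j, l j * e' j)

/-- The value of the initial form of `F` with respect to the weights `l` at the point `z` of the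
torus over the algebraic closure of `k`. -/
noncomputable def initialValue {k : Type u} [Field k] {h n : ℕ}
    (F : (Fin h ⊕ Fin n → ℤ) →₀ k) (l : Fin h ⊕ Fin n → ℤ)
    (z : Fin h ⊕ Fin n → AlgebraicClosure k) : AlgebraicClosure k :=
  ∑ e ∈ initialExponents F l, algebraMap k (AlgebraicClosure k) (F e) * ∏ j, z j ^ e j

/-- The vector of the values of the logarithmic partial derivatives `Y i * ∂ / ∂ Y i`,
`i = 1, ..., n` (with respect to the second group of variables only), of the initial form of `F`
with respect to the weights `l` at the point `z`. -/
noncomputable def initialGradient {k : Type u} [Field k] {h n : ℕ}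
    (F : (Fin h ⊕ Fin n → ℤ) →₀ k) (l : Fin h ⊕ Fin n → ℤ)
    (z : Fin h ⊕ Fin n → AlgebraicClosure k) : Fin n → AlgebraicClosure k :=
  fun i => ∑ e ∈ initialExponents F l,
    algebraMap k (AlgebraicClosure k) (F e) * (e (Sum.inr i) : AlgebraicClosure k) *
      ∏ j, z j ^ e j

/-- The Laurent polynomials `G 1, ..., G q` in `U` and `Y` are schön equations of codimension at
least `c` with respect to the variables `Y`: for all weights `l ∈ ℤ^h × ℤ^n` and all points
`z` of the torus over the algebraic closure of `k` at which the initial forms of all `G i` vanish
the vectors of the derivatives of these initial forms in the directions of `Y` span a space of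
dimension at least `c`. -/
def SchonEquations {k : Type u} [Field k] {h n q : ℕ} (G : Fin q → (Fin h ⊕ Fin n → ℤ) →₀ k)
    (c : ℕ) : Prop :=
  ∀ (l : Fin h ⊕ Fin n → ℤ) (z : Fin h ⊕ Fin n → AlgebraicClosure k), (∀ j, z j ≠ 0) →
    (∀ i, initialValue (G i) l z = 0) →
    c ≤ Module.finrank (AlgebraicClosure k) (Submodule.span (AlgebraicClosure k)
      (Set.range fun i => initialGradient (G i) l z))

/-- The Laurent polynomials `F 1, ..., F s` are strongly nondegenerate on the subscheme given by
`G 1, ..., G q`: for all weights `l ∈ ℤ^h × ℤ^n` and all points `z` of the torus over the algebraic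
closure of `k` at which the initial forms of all `G i` vanish the vector of the derivatives of
the initial form of `F t` at `z` in the directions of `Y` is not a linear combination of those
of the `G i` and of the `F t'`, `t' ≠ t`. -/
def StronglyNondegenerateOn {k : Type u} [Field k] {h n q s : ℕ}
    (G : Fin q → (Fin h ⊕ Fin n → ℤ) →₀ k) (F : Fin s → (Fin h ⊕ Fin n → ℤ) →₀ k) : Prop :=
  ∀ (l : Fin h ⊕ Fin n → ℤ) (z : Fin h ⊕ Fin n → AlgebraicClosure k), (∀ j, z j ≠ 0) →
    (∀ i, initialValue (G i) l z = 0) → ∀ t,
    initialGradient (F t) l z ∉ Submodule.span (AlgebraicClosure k)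
      ((Set.range fun i => initialGradient (G i) l z) ∪
        {v | ∃ t', t' ≠ t ∧ v = initialGradient (F t') l z})

/-- Let `k` be a perfect field of characteristic `p`. Let `x i 0, x i 1` (`i = 1, ..., m`) and
`y 1, ..., y n` be elements of the field extension `K` of `k`, `y j ≠ 0`, and let `u 1, ..., u h` be
products of nonzero rational functions `U a i / V a i` of the pairs `x i 0, x i 1`. Suppose that
`G i (u, y) = 0` for Laurent polynomials `G 1, ..., G q` over `k` which are schön equations
of codimension at least `c` with respect to the variables `Y`, and that the `x i j` together with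
`d = n - c` of the elements `y 1, ..., y n` are algebraically independent. Let `f i = P i / Q i` be
arbitrary rational functions in two variables, and let the Laurent polynomials `F 1, ..., F s` be
strongly nondegenerate on the subscheme given by the `G i`. Suppose that `K` is generated over `k`
by the `x i j`, the `y l` and elements `w 1, ..., w r` such that every `w j ^ p` is a linear
combination with coefficients in `k` of the `f i (x i 0, x i 1)` and the `F t (u, y)`. Let `A` be a
finitely generated `k`-algebra with fraction field `K` which is integral over the subalgebra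
generated by finitely many elements each of which is a product of rational functions in the
pairs `x i 0, x i 1` and a Laurent monomial in `y 1, ..., y n`; for example `k[x, y]`. Then the
variety `Spec A` has a resolution of singularities. -/
theorem result (p : ℕ) [Fact p.Prime] (k K : Type u) [Field k] [PerfectField k] [CharP k p]
    [Field K] [Algebra k K] (m n h c d q r s : ℕ) (x : Fin m → Fin 2 → K) (y : Fin n → K)
    (hy : ∀ j, y j ≠ 0) (U V : Fin h → Fin m → MvPolynomial (Fin 2) k) (hU : ∀ a i, U a i ≠ 0)
    (hV : ∀ a i, V a i ≠ 0) (u : Fin h → K)
    (hu : ∀ a, u a = ∏ i, MvPolynomial.aeval (x i) (U a i) / MvPolynomial.aeval (x i) (V a i))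
    (G : Fin q → (Fin h ⊕ Fin n → ℤ) →₀ k) (hG : SchonEquations G c)
    (hGy : ∀ i, value (G i) u y = 0) (ρ : Fin d → Fin n) (hn : c + d = n)
    (hxy : AlgebraicIndependent k (Sum.elim (fun q : Fin m × Fin 2 => x q.1 q.2) (y ∘ ρ)))
    (P Q : Fin m → MvPolynomial (Fin 2) k) (hQ : ∀ i, Q i ≠ 0)
    (F : Fin s → (Fin h ⊕ Fin n → ℤ) →₀ k) (hF : StronglyNondegenerateOn G F)
    (w : Fin r → K)
    (hw : ∀ j, w j ^ p ∈ Submodule.span k
      ((Set.range fun i => MvPolynomial.aeval (x i) (P i) / MvPolynomial.aeval (x i) (Q i)) ∪
        Set.range fun t => value (F t) u y))
    (hgen : IntermediateField.adjoin k (Set.range w ∪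
      Set.range (Sum.elim (fun q : Fin m × Fin 2 => x q.1 q.2) y)) = ⊤)
    (A : Type u) [CommRing A] [IsDomain A] [Algebra k A] [Algebra.FiniteType k A] [Algebra A K]
    [IsScalarTower k A K] [IsFractionRing A K] (S : Finset A)
    (hS : ∀ a ∈ S, ∃ (R H : Fin m → MvPolynomial (Fin 2) k) (e : Fin n → ℤ),
      (∀ i, R i ≠ 0 ∧ H i ≠ 0) ∧ algebraMap A K a =
        (∏ i, MvPolynomial.aeval (x i) (R i) / MvPolynomial.aeval (x i) (H i)) *
          ∏ l, y l ^ e l)
    (hA : ∀ a : A, IsIntegral (Algebra.adjoin k (S : Set A)) a) :
    IsResolvableVariety (X := Spec (CommRingCat.of A))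
      (Spec.map (CommRingCat.ofHom (algebraMap k A))) := by
  have hNDc : Pool.Agent.TH214.V.NDVc G F (Function.Embedding.inr : Fin n ↪ Fin h ⊕ Fin n)
      (fun _ => True) c := by
    intro l z hz hv
    refine ⟨hG l z hz hv, fun t _ => ?_⟩
    have h1 := hF l z hz hv t
    have h2 : {v | ∃ t', t' ≠ t ∧ (True ∨ ∃ e ∈ (F t').support, ∑ j, l j * e j ≤ 0) ∧
        v = Pool.Agent.TH214.V.gv (F t') (Function.Embedding.inr : Fin n ↪ Fin h ⊕ Fin n) l z} =
        {v | ∃ t', t' ≠ t ∧ v = initialGradient (F t') l z} := by
      ext v
      constructor
      · rintro ⟨t', h3, h4, h5⟩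
        exact ⟨t', h3, h5⟩
      · rintro ⟨t', h3, h5⟩
        exact ⟨t', h3, Or.inl trivial, h5⟩
    rw [h2]
    exact h1
  have hND := Pool.Agent.TH214.V.ndv_of_ndvc hNDc
  have e1 : (fun j => j ∈ Set.range (Function.Embedding.inr : Fin n ↪ Fin h ⊕ Fin n)) =
      fun j => ((Function.Embedding.refl (Fin h ⊕ Fin n)) j).isRight = true := by
    funext j
    apply propext
    rcases j with j | j
    · constructor
      · rintro ⟨i, hi⟩
        exact absurd hi (by simp)
      · intro hi
        exact absurd hi (by simp)
    · exact ⟨fun _ => rfl, fun _ => ⟨j, rfl⟩⟩
  rw [e1] at hND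
  exact Pool.Agent.TH214.V.schp_resolution p k K m n x y hy d c ρ hn hxy P Q hQ (Fin h) U V hU hV
    u hu (Fin h ⊕ Fin n) (Function.Embedding.refl _) (Fin q) (Fin s) G F hGy hND r w hw hgen A S
    hS hA

end Pool.Agent.Results.MP_b525bf_ag.SchonInseparable
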